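import Pool.Agent.Y804.FM.Theta

/-!
Elements of the field of de Rham periods: division by powers of `ξ`, and the leading coefficient of
an eigenvector of the Galois group.
-/

set_option autoImplicit false
set_option linter.unusedSectionVars false

namespace Pool.Agent.Y804.FM

open Ideal WittVector Pool.Agent.W292.FM

variable (p : ℕ) [hp : Fact p.Prime]

/-- `BDeRhamPlus` for `ℂ_[p]` -/
abbrev BP : Type := BDeRhamPlus 𝓞_ℂ_[p] p

/-- `BDeRham` for `ℂ_[p]` -/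
abbrev BD : Type := Localization (genSub 𝓞_ℂ_[p] p)

theorem xiL_ne_zero : xiL p ≠ 0 := by
  intro h
  have h1 : xi p = 0 := algebraMap_AL_injective p (by rw [map_zero]; exact h)
  -- `θ` is surjective onto a ring where `p ≠ 0`; `ξ = 0` gives `[p♭] = p`, hence `p ∣ [p♭]`
  have h2 : teichmuller p (pflat p) = (p : AI p) := sub_eq_zero.1 h1
  have h3 := congrArg (fun x : AI p => x.coeff 0) h2
  simp only [WittVector.teichmuller_coeff_zero] at h3
  have h4 : ((p : AI p)).coeff 0 = 0 := by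
    have := WittVector.coeff_p_zero (p := p) (R := TT p)
    simpa using this
  rw [h4] at h3
  have h5 := untilt_pflat (p := p)
  rw [h3] at h5
  have h6 : (0 : TT p).untilt = 0 := by
    have h7 : fontaineTheta 𝓞_ℂ_[p] p (teichmuller p (0 : TT p)) = 0 := by
      rw [WittVector.teichmuller_zero, map_zero]
    rw [fontaineTheta_teichmuller] at h7
    exact h7
  rw [h6] at h5
  exact p_ne_zero_int h5.symm

/-- `ξ` in `BDeRhamPlus` -/
noncomputable def xiP : BP p := toPlus p (xiL p)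

theorem xiP_pow_mul_eq_zero (n : ℕ) {b : BP p} (h : xiP p ^ n * b = 0) : b = 0 :=
  of_pow_mul_eq_zero (kerT_eq p) (xiL_ne_zero p) n h

theorem xiP_pow_mul_cancel (n : ℕ) {b c : BP p} (h : xiP p ^ n * b = xiP p ^ n * c) : b = c := by
  rw [← sub_eq_zero] at h ⊢
  rw [← mul_sub] at h
  exact xiP_pow_mul_eq_zero p n h

theorem exists_eq_xiP_pow_mul {b : BP p} (hb : b ≠ 0) :
    ∃ (n : ℕ) (c : BP p), b = xiP p ^ n * c ∧ thP p c ≠ 0 := by
  obtain ⟨n, c, h1, h2⟩ := exists_eq_pow_mul (kerT_eq p) (xiL_ne_zero p) hb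
  exact ⟨n, c, h1, fun h => h2 (evalP_one_eq_zero p h)⟩

theorem genSub_dvd {s : BP p} (hs : s ∈ genSub 𝓞_ℂ_[p] p) :
    ∃ (m : ℕ) (u : BP p), xiP p ^ m = s * u := by
  induction hs using Submonoid.closure_induction with
  | mem x hx =>
    obtain ⟨a, ha, rfl⟩ := hx
    have h1 : xiL p ∈ kerT 𝓞_ℂ_[p] p := by rw [kerT_eq]; exact Ideal.mem_span_singleton_self _
    have ha' : kerT 𝓞_ℂ_[p] p = span {a} := ha
    rw [ha', Ideal.mem_span_singleton] at h1
    obtain ⟨c, hc⟩ := h1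
    refine ⟨1, toPlus p c, ?_⟩
    rw [pow_one, xiP, hc, map_mul]
    rfl
  | one => exact ⟨0, 1, by simp⟩
  | mul x y _ _ hx hy =>
    obtain ⟨m, u, hu⟩ := hx
    obtain ⟨n, v, hv⟩ := hy
    exact ⟨m + n, u * v, by rw [pow_add, hu, hv]; ring⟩

theorem xiP_mem : xiP p ∈ genSub 𝓞_ℂ_[p] p :=
  Submonoid.subset_closure ⟨xiL p, kerT_eq p, rfl⟩

theorem algebraMap_BD_injective : Function.Injective (algebraMap (BP p) (BD p)) := by
  intro x y h
  obtain ⟨s, hs⟩ := (IsLocalization.eq_iff_exists (genSub 𝓞_ℂ_[p] p) (BD p)).1 h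
  obtain ⟨m, u, hu⟩ := genSub_dvd p s.2
  refine xiP_pow_mul_cancel p m ?_
  rw [hu, mul_comm (s : BP p) u, mul_assoc, mul_assoc, hs]

theorem isUnit_xiD : IsUnit (algebraMap (BP p) (BD p) (xiP p)) :=
  IsLocalization.map_units (BD p) (⟨xiP p, xiP_mem p⟩ : genSub 𝓞_ℂ_[p] p)

/-- Every nonzero element of `BDeRham` is a power of `ξ` times an element of `BDeRhamPlus` with
nonzero image under `θ`. -/
theorem exists_eq_BD {b : BD p} (hb : b ≠ 0) : ∃ (m n : ℕ) (z : BP p),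
    b * algebraMap (BP p) (BD p) (xiP p) ^ m = algebraMap (BP p) (BD p) (xiP p ^ n * z) ∧
      thP p z ≠ 0 := by
  obtain ⟨⟨y, s⟩, h⟩ := IsLocalization.surj (genSub 𝓞_ℂ_[p] p) b
  obtain ⟨m, u, hu⟩ := genSub_dvd p s.2
  have h1 : b * algebraMap (BP p) (BD p) (xiP p) ^ m = algebraMap (BP p) (BD p) (y * u) := by
    rw [← map_pow, hu, map_mul, map_mul, ← mul_assoc, h]
  have h2 : y * u ≠ 0 := by
    intro h0
    rw [h0, map_zero] at h1
    exact hb (((isUnit_xiD p).pow m).mul_left_eq_zero.1 h1)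
  obtain ⟨n, z, hz, hz0⟩ := exists_eq_xiP_pow_mul p h2
  exact ⟨m, n, z, by rw [h1, hz], hz0⟩

/-! ### Scalars -/

theorem theta_zpMap (x : ℤ_[p]) :
    ((fontaineTheta 𝓞_ℂ_[p] p (zpMap 𝓞_ℂ_[p] p x) : 𝓞_ℂ_[p]) : ℂ_[p]) =
      algebraMap ℚ_[p] ℂ_[p] (x : ℚ_[p]) := by
  have hx : ‖algebraMap ℚ_[p] ℂ_[p] (x : ℚ_[p])‖ ≤ 1 := by
    have h := PadicComplex.norm_extends' p (x : ℚ_[p])
    have h2 : ‖algebraMap ℚ_[p] ℂ_[p] (x : ℚ_[p])‖ = ‖(x : ℚ_[p])‖ := h
    rw [h2]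
    exact x.2
  set X : 𝓞_ℂ_[p] := ⟨algebraMap ℚ_[p] ℂ_[p] (x : ℚ_[p]), (mem_int_iff p _).2 hx⟩ with hX
  have key : fontaineTheta 𝓞_ℂ_[p] p (zpMap 𝓞_ℂ_[p] p x) = X := by
    rw [IsHausdorff.eq_iff_smodEq (I := span {(p : 𝓞_ℂ_[p])})]
    intro n
    rw [smodEq_iff]
    obtain ⟨y, hy⟩ : ∃ y : ℤ_[p], x - (x.appr n : ℤ_[p]) = (p : ℤ_[p]) ^ n * y := by
      have := PadicInt.appr_spec n x
      rw [Ideal.mem_span_singleton] at this
      exact this
    have hy' : x = (x.appr n : ℤ_[p]) + (p : ℤ_[p]) ^ n * y := by rw [← hy]; ring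
    have e1 : ((fontaineTheta 𝓞_ℂ_[p] p (zpMap 𝓞_ℂ_[p] p x) : 𝓞_ℂ_[p]) : ℂ_[p]) =
        (x.appr n : ℂ_[p]) + (p : ℂ_[p]) ^ n *
          ((fontaineTheta 𝓞_ℂ_[p] p (zpMap 𝓞_ℂ_[p] p y) : 𝓞_ℂ_[p]) : ℂ_[p]) := by
      nth_rw 1 [hy']
      simp only [map_add, map_mul, map_pow, map_natCast]
      simp
    have e2 : ((X : 𝓞_ℂ_[p]) : ℂ_[p]) = (x.appr n : ℂ_[p]) + (p : ℂ_[p]) ^ n *
          algebraMap ℚ_[p] ℂ_[p] (y : ℚ_[p]) := by
      change algebraMap ℚ_[p] ℂ_[p] (x : ℚ_[p]) = _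
      nth_rw 1 [hy']
      push_cast
      simp only [map_add, map_mul, map_pow, map_natCast]
    have hy1 : ‖algebraMap ℚ_[p] ℂ_[p] (y : ℚ_[p])‖ ≤ 1 := by
      have h := PadicComplex.norm_extends' p (y : ℚ_[p])
      have h2 : ‖algebraMap ℚ_[p] ℂ_[p] (y : ℚ_[p])‖ = ‖(y : ℚ_[p])‖ := h
      rw [h2]
      exact y.2
    have e3 : ((fontaineTheta 𝓞_ℂ_[p] p (zpMap 𝓞_ℂ_[p] p x) : 𝓞_ℂ_[p]) : ℂ_[p]) - (X : ℂ_[p]) =
        (p : ℂ_[p]) ^ n * (((fontaineTheta 𝓞_ℂ_[p] p (zpMap 𝓞_ℂ_[p] p y) : 𝓞_ℂ_[p]) : ℂ_[p]) -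
          algebraMap ℚ_[p] ℂ_[p] (y : ℚ_[p])) := by
      rw [e1, e2]; ring
    rw [e3, norm_mul, norm_pow]
    refine mul_le_of_le_one_right (pow_nonneg (norm_nonneg _) _) ?_
    rw [sub_eq_add_neg]
    refine (IsUltrametricDist.norm_add_le_max _ _).trans (max_le (norm_int_le p _) ?_)
    rw [norm_neg]; exact hy1
  rw [key]

theorem thC_qpMap (c : ℚ_[p]) : thC p (qpMap 𝓞_ℂ_[p] p c) = algebraMap ℚ_[p] ℂ_[p] c := by
  have key : (thC p).comp (qpMap 𝓞_ℂ_[p] p) = algebraMap ℚ_[p] ℂ_[p] := by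
    refine IsLocalization.ringHom_ext (nonZeroDivisors ℤ_[p]) ?_
    ext x
    simp only [RingHom.comp_apply]
    rw [qpMap_coe, thC_algebraMap, theta_zpMap]
    rfl
  exact congrArg (fun f : ℚ_[p] →+* ℂ_[p] => f c) key

theorem thP_algebraMap (c : ℚ_[p]) :
    thP p (algebraMap ℚ_[p] (BP p) c) = algebraMap ℚ_[p] ℂ_[p] c := by
  rw [algebraMap_plus, thP_toPlus, thC_qpMap]

/-! ### The cocycle -/

theorem exists_cocycle (g : Gal(PadicAlgCl p/ℚ_[p])) :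
    ∃ a : AL p, locMap p (intMap p g) (xiL p) = a * xiL p := by
  have h := locMap_mem_ker p (intMap p g) (x := xiL p) ((mem_kerT_iff p _).2 (thC_xiL p))
  have h2 := (thC_eq_zero_iff p _).1 ((mem_kerT_iff p _).1 h)
  obtain ⟨a, ha⟩ := h2
  exact ⟨a, by rw [ha, mul_comm]⟩

/-- The factor `g(ξ) / ξ`. -/
noncomputable def coc (g : Gal(PadicAlgCl p/ℚ_[p])) : AL p := (exists_cocycle p g).choose

theorem locMap_xiL (g : Gal(PadicAlgCl p/ℚ_[p])) :
    locMap p (intMap p g) (xiL p) = coc p g * xiL p := (exists_cocycle p g).choose_spec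

theorem plusMap_xiP (g : Gal(PadicAlgCl p/ℚ_[p])) :
    plusMap p (intMap p g) (xiP p) = toPlus p (coc p g) * xiP p := by
  rw [xiP, plusMap_toPlus, locMap_xiL, map_mul]

/-- The leading coefficient of an eigenvector of the Galois group in `BDeRham`. -/
theorem exists_leading {b : BD p} (hb : b ≠ 0) (c : Gal(PadicAlgCl p/ℚ_[p]) → ℚ_[p])
    (h : ∀ g, bdrMap p (intMap p g) b = algebraMap ℚ_[p] (BD p) (c g) * b) :
    ∃ (m n : ℕ) (x : ℂ_[p]), x ≠ 0 ∧ ∀ g, algebraMap ℚ_[p] ℂ_[p] (c g) * thC p (coc p g) ^ m * x =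
      thC p (coc p g) ^ n * cpMap p g x := by
  obtain ⟨m, n, z, hz, hz0⟩ := exists_eq_BD p hb
  refine ⟨m, n, thP p z, hz0, fun g => ?_⟩
  have h1 := congrArg (bdrMap p (intMap p g)) hz
  have h1' : plusMap p (intMap p g) (xiP p ^ n * z) =
      (toPlus p (coc p g) * xiP p) ^ n * plusMap p (intMap p g) z := by
    rw [map_mul, map_pow, plusMap_xiP]
  rw [map_mul, map_pow, h, bdrMap_algebraMap, bdrMap_algebraMap, h1', plusMap_xiP] at h1
  have h2 : algebraMap ℚ_[p] (BD p) (c g) =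
      algebraMap (BP p) (BD p) (algebraMap ℚ_[p] (BP p) (c g)) := algebraMap_bdr _ p (c g)
  have h3 : algebraMap (BP p) (BD p) (xiP p ^ n * (algebraMap ℚ_[p] (BP p) (c g) *
      toPlus p (coc p g) ^ m * z)) =
      algebraMap (BP p) (BD p) (xiP p ^ n * (toPlus p (coc p g) ^ n *
        plusMap p (intMap p g) z)) := by
    calc algebraMap (BP p) (BD p) (xiP p ^ n * (algebraMap ℚ_[p] (BP p) (c g) *
          toPlus p (coc p g) ^ m * z))
        = algebraMap (BP p) (BD p) (algebraMap ℚ_[p] (BP p) (c g)) *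
            algebraMap (BP p) (BD p) (toPlus p (coc p g)) ^ m *
            algebraMap (BP p) (BD p) (xiP p ^ n * z) := by
          simp only [map_mul, map_pow]; ring
      _ = algebraMap ℚ_[p] (BD p) (c g) * b *
            algebraMap (BP p) (BD p) (toPlus p (coc p g) * xiP p) ^ m := by
          rw [← hz, h2, map_mul]; ring
      _ = _ := by
          rw [h1]
          simp only [map_mul, map_pow]; ring
  have h4 := xiP_pow_mul_cancel p n (algebraMap_BD_injective p h3)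
  have h5 := congrArg (thP p) h4
  simpa only [map_mul, map_pow, thP_toPlus, thP_algebraMap, thP_plusMap] using h5

end Pool.Agent.Y804.FM
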