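import Mathlib

/-!
The completion of a domain at a nonzero principal ideal.
-/

set_option autoImplicit false
set_option linter.unusedSectionVars false

namespace Pool.Agent.Y804.FM

open Ideal

section Completion

universe u

variable {A : Type u} [CommRing A] [IsDomain A] (I : Ideal A) {ξ : A}

theorem exists_rep (b : AdicCompletion I A) : ∃ a : ℕ → A,
    (∀ n, AdicCompletion.evalₐ I n b = Ideal.Quotient.mk _ (a n)) ∧
    ∀ m n, m ≤ n → a n - a m ∈ I ^ m := by
  obtain ⟨f, rfl⟩ := AdicCompletion.mk_surjective I A b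
  refine ⟨fun n => f n, fun n => AdicCompletion.evalₐ_mk I n f, fun m n h => ?_⟩
  have := AdicCompletion.Ideal.mk_eq_mk I h f
  rwa [Ideal.Quotient.eq] at this

/-- The element of the completion given by a compatible sequence. -/
noncomputable def mkC (a : ℕ → A) (ha : ∀ n, a n - a (n + 1) ∈ I ^ n) : AdicCompletion I A :=
  AdicCompletion.mk I A (AdicCompletion.AdicCauchySequence.mk I A a (fun n => by
    rw [SModEq.sub_mem, smul_eq_mul, Ideal.mul_top]
    exact ha n))

theorem eval_mkC (a : ℕ → A) (ha : ∀ n, a n - a (n + 1) ∈ I ^ n) (n : ℕ) :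
    AdicCompletion.evalₐ I n (mkC I a ha) = Ideal.Quotient.mk _ (a n) :=
  AdicCompletion.evalₐ_mk I n _

variable {I}

theorem mem_pow_iff (hI : I = span {ξ}) (n : ℕ) (x : A) : x ∈ I ^ n ↔ ξ ^ n ∣ x := by
  rw [hI, Ideal.span_singleton_pow, Ideal.mem_span_singleton]

theorem mul_mem_pow_succ (hI : I = span {ξ}) (hξ : ξ ≠ 0) {n : ℕ} {x : A} (h : ξ * x ∈ I ^ (n + 1)) :
    x ∈ I ^ n := by
  rw [mem_pow_iff hI] at h ⊢
  rw [pow_succ'] at h
  exact (mul_dvd_mul_iff_left hξ).1 h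

theorem of_mul_eq_zero (hI : I = span {ξ}) (hξ : ξ ≠ 0) {b : AdicCompletion I A}
    (h : AdicCompletion.of I A ξ * b = 0) : b = 0 := by
  obtain ⟨a, ha, hc⟩ := exists_rep I b
  refine AdicCompletion.ext_evalₐ fun n => ?_
  have h1 : AdicCompletion.evalₐ I (n + 1) (AdicCompletion.of I A ξ * b) = 0 := by rw [h, map_zero]
  rw [map_mul, AdicCompletion.evalₐ_of, ha, ← map_mul, Ideal.Quotient.eq_zero_iff_mem] at h1
  have h2 := mul_mem_pow_succ hI hξ h1
  rw [ha, map_zero, Ideal.Quotient.eq_zero_iff_mem]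
  have h3 := hc n (n + 1) (Nat.le_succ n)
  have : a n = a (n + 1) - (a (n + 1) - a n) := by ring
  rw [this]
  exact Ideal.sub_mem _ h2 h3

theorem of_pow_mul_eq_zero (hI : I = span {ξ}) (hξ : ξ ≠ 0) (n : ℕ) {b : AdicCompletion I A}
    (h : AdicCompletion.of I A ξ ^ n * b = 0) : b = 0 := by
  induction n with
  | zero => simpa using h
  | succ n ih =>
    rw [pow_succ', mul_assoc] at h
    exact ih (of_mul_eq_zero hI hξ h)

theorem dvd_of_eval_one (hI : I = span {ξ}) (hξ : ξ ≠ 0) {b : AdicCompletion I A}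
    (h : AdicCompletion.evalₐ I 1 b = 0) : ∃ c, b = AdicCompletion.of I A ξ * c := by
  obtain ⟨a, ha, hc⟩ := exists_rep I b
  rw [ha, Ideal.Quotient.eq_zero_iff_mem] at h
  have h1 : ∀ n, ξ ∣ a (n + 1) := by
    intro n
    have h2 := hc 1 (n + 1) (by omega)
    have h3 : a (n + 1) = (a (n + 1) - a 1) + a 1 := by ring
    have h4 : a (n + 1) ∈ I ^ 1 := by rw [h3]; exact Ideal.add_mem _ h2 h
    rw [mem_pow_iff hI, pow_one] at h4
    exact h4
  choose c hcc using h1
  have h5 : ∀ n, c n - c (n + 1) ∈ I ^ n := by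
    intro n
    apply mul_mem_pow_succ hI hξ
    have h6 := hc (n + 1) (n + 2) (by omega)
    have h7 : ξ * (c n - c (n + 1)) = -(a (n + 2) - a (n + 1)) := by
      rw [hcc n, hcc (n + 1)]; ring
    rw [h7]
    exact (I ^ (n + 1)).neg_mem h6
  refine ⟨mkC I c h5, AdicCompletion.ext_evalₐ fun n => ?_⟩
  rw [map_mul, AdicCompletion.evalₐ_of, eval_mkC, ← map_mul, ha, Ideal.Quotient.eq, ← hcc n]
  have h8 := hc n (n + 1) (Nat.le_succ n)
  have : a n - a (n + 1) = -(a (n + 1) - a n) := by ring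
  rw [this]
  exact (I ^ n).neg_mem h8

theorem exists_eq_pow_mul (hI : I = span {ξ}) (hξ : ξ ≠ 0) {b : AdicCompletion I A}
    (hb : b ≠ 0) : ∃ (n : ℕ) (c : AdicCompletion I A), b = AdicCompletion.of I A ξ ^ n * c ∧
      AdicCompletion.evalₐ I 1 c ≠ 0 := by
  by_contra hcon
  push Not at hcon
  have h1 : ∀ n : ℕ, ∃ c : AdicCompletion I A, b = AdicCompletion.of I A ξ ^ n * c := by
    intro n
    induction n with
    | zero => exact ⟨b, by simp⟩
    | succ n ih =>
      obtain ⟨c, hc⟩ := ih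
      obtain ⟨d, hd⟩ := dvd_of_eval_one hI hξ (hcon n c hc)
      exact ⟨d, by rw [hc, hd]; ring⟩
  apply hb
  refine AdicCompletion.ext_evalₐ fun n => ?_
  obtain ⟨c, hc⟩ := h1 n
  rw [hc, map_mul, map_pow, AdicCompletion.evalₐ_of, ← map_pow, map_zero]
  have : (Ideal.Quotient.mk (I ^ n)) (ξ ^ n) = 0 := by
    rw [Ideal.Quotient.eq_zero_iff_mem, mem_pow_iff hI]
  rw [this, zero_mul]

end Completion

end Pool.Agent.Y804.FM
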