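import Pool.Agent.W292.FM.Scalars
import Pool.Agent.W292.FM.Galois

/-!
Representations of the absolute Galois group of a number field over the algebraic closure of
`ℚ_l`: de Rham representations, and representations which are unramified, integral and pure
outside `l`.
-/

set_option autoImplicit false

open NumberField TensorProduct

namespace Pool.Agent.Y804.FM

/-- Fontaine's field of `l`-adic de Rham periods, as defined in Mathlib. -/
def BdR (l : ℕ) [Fact l.Prime] : Type := BDeRham 𝓞_ℂ_[l] l

noncomputable instance instCommRingBdR (l : ℕ) [Fact l.Prime] : CommRing (BdR l) :=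
  (inferInstance : CommRing (Localization (W292.FM.genSub 𝓞_ℂ_[l] l)))

noncomputable instance instAlgebraBdR (l : ℕ) [Fact l.Prime] : Algebra ℚ_[l] (BdR l) :=
  (inferInstance : Algebra ℚ_[l] (Localization (W292.FM.genSub 𝓞_ℂ_[l] l)))

/-- The action of `σ` in the absolute Galois group of `ℚ_l` on the field of periods. -/
noncomputable def galBdR (l : ℕ) [Fact l.Prime] (σ : Gal(PadicAlgCl l/ℚ_[l])) :
    BdR l →ₐ[ℚ_[l]] BdR l :=
  W292.FM.bdrAlg l (W292.FM.intMap l σ)

/-- `V ⊗ B_dR`, where `V` is the space of column vectors of length `n` over the algebraic closure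
of `ℚ_l` and the tensor product is over `ℚ_l`. -/
def VdR (l : ℕ) [Fact l.Prime] (n : ℕ) : Type := (Fin n → PadicAlgCl l) ⊗[ℚ_[l]] BdR l

noncomputable instance instAddCommGroupVdR (l : ℕ) [Fact l.Prime] (n : ℕ) :
    AddCommGroup (VdR l n) :=
  (inferInstance : AddCommGroup ((Fin n → PadicAlgCl l) ⊗[ℚ_[l]] BdR l))

noncomputable instance instModuleVdR (l : ℕ) [Fact l.Prime] (n : ℕ) :
    Module (PadicAlgCl l) (VdR l n) :=
  (inferInstance : Module (PadicAlgCl l) ((Fin n → PadicAlgCl l) ⊗[ℚ_[l]] BdR l))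

/-- The endomorphism `M ⊗ σ` of `V ⊗ B_dR`, for a matrix `M` and `σ` in the absolute Galois group
of `ℚ_l`. -/
noncomputable def actVdR {l : ℕ} [Fact l.Prime] {n : ℕ} (M : Matrix (Fin n) (Fin n) (PadicAlgCl l))
    (σ : Gal(PadicAlgCl l/ℚ_[l])) : VdR l n →ₗ[PadicAlgCl l] VdR l n :=
  AlgebraTensorModule.map (Matrix.mulVecLin M) (galBdR l σ).toLinearMap

variable {l : ℕ} [Fact l.Prime] {F : Type} [Field F] {n : ℕ}

/-- The completion `F_v`, as a subfield of the algebraic closure of `ℚ_l`, of the field `F` at the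
place `v` above `l` defined by the embedding `ι`. -/
noncomputable def localField (ι : AlgebraicClosure F →+* PadicAlgCl l) :
    IntermediateField ℚ_[l] (PadicAlgCl l) :=
  IntermediateField.adjoin ℚ_[l] (Set.range fun a : F => ι (algebraMap F (AlgebraicClosure F) a))

/-- `D_dR(V) = (V ⊗ B_dR)^G` for the place `v` above `l` defined by the embedding `ι`, where `G` is
the absolute Galois group of `F_v`: the pairs `(σ, τ)` with `σ ∘ ι = ι ∘ τ` are the elements `σ` of
`G` together with their restrictions `τ` to the algebraic closure of `F`. -/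
noncomputable def DdR (ι : AlgebraicClosure F →+* PadicAlgCl l)
    (ρ : Gal(AlgebraicClosure F/F) →* GL (Fin n) (PadicAlgCl l)) :
    Submodule (PadicAlgCl l) (VdR l n) :=
  ⨅ (σ : Gal(PadicAlgCl l/ℚ_[l])) (τ : Gal(AlgebraicClosure F/F))
    (_ : ∀ y, σ (ι y) = ι (τ y)), LinearMap.eqLocus (actVdR (ρ τ) σ) LinearMap.id

/-- `ρ` is de Rham at the place `v` above `l` defined by `ι`: the dimension of `D_dR(V)` over the
algebraic closure of `ℚ_l` is `n [F_v : ℚ_l]`, the largest possible value. -/
def IsDeRham (ι : AlgebraicClosure F →+* PadicAlgCl l)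
    (ρ : Gal(AlgebraicClosure F/F) →* GL (Fin n) (PadicAlgCl l)) : Prop :=
  Module.finrank (PadicAlgCl l) (DdR ι ρ) = n * Module.finrank ℚ_[l] (localField ι)

/-- For every place `v` not above `l`, with residue field of order `q`: `ρ` is unramified at `v`,
and every eigenvalue of a geometric Frobenius element at `v` is an algebraic integer all of whose
complex conjugates have absolute value `q ^ (w / 2)`. Here `P` is a prime ideal of the ring of all
algebraic integers which defines `v`. -/
def UnramifiedIntegralPure (w : ℤ)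
    (ρ : Gal(AlgebraicClosure F/F) →* GL (Fin n) (PadicAlgCl l)) : Prop :=
  ∀ P : Ideal (𝓞 (AlgebraicClosure F)), P.IsMaximal → (l : 𝓞 (AlgebraicClosure F)) ∉ P →
    (∀ τ : Gal(AlgebraicClosure F/F), (∀ x : 𝓞 (AlgebraicClosure F), τ • x - x ∈ P) → ρ τ = 1) ∧
    ∀ τ : Gal(AlgebraicClosure F/F),
      (∀ x : 𝓞 (AlgebraicClosure F), τ • x ^ Nat.card (𝓞 F ⧸ P.under (𝓞 F)) - x ∈ P) →
      ∀ a : PadicAlgCl l,
        (ρ τ : Matrix (Fin n) (Fin n) (PadicAlgCl l)).charpoly.IsRoot a →
        IsIntegral ℤ a ∧ ∀ z : ℂ, Polynomial.aeval z (minpoly ℚ a) = 0 →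
          ‖z‖ = (Nat.card (𝓞 F ⧸ P.under (𝓞 F)) : ℝ) ^ ((w : ℝ) / 2)

end Pool.Agent.Y804.FM
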