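import Pool.Agent.Y804.FM.Eps

/-!
`θ(([ε] - 1) / ξ)` is not zero.
-/

set_option autoImplicit false
set_option linter.unusedSectionVars false

namespace Pool.Agent.Y804.FM

open Ideal WittVector Pool.Agent.W292.FM

variable (p : ℕ) [hp : Fact p.Prime]

/-- The norm of the untilt. -/
noncomputable def nsh (x : TT p) : ℝ := ‖((x.untilt : 𝓞_ℂ_[p]) : ℂ_[p])‖

variable {p}

theorem nsh_mul (x y : TT p) : nsh p (x * y) = nsh p x * nsh p y := by
  simp [nsh]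

theorem nsh_pow (x : TT p) (n : ℕ) : nsh p (x ^ n) = nsh p x ^ n := by
  simp [nsh]

theorem nsh_seqT (x : TT p) (n : ℕ) : ‖((seqT x n : 𝓞_ℂ_[p]) : ℂ_[p])‖ ^ p ^ n = nsh p x := by
  have h1 := pow_ppow_eq (a := seqT x) (seqT_succ_pow x) n
  rw [nsh, ← seqT_zero, ← h1]
  simp

/-- The norm of the untilt is determined by a component of norm larger than `1 / p`. -/
theorem nsh_of_coeff (x : TT p) (n : ℕ) (y : 𝓞_ℂ_[p])
    (hy : PreTilt.coeff n x = Ideal.Quotient.mk _ y) (h : ‖(p : ℂ_[p])‖ < ‖(y : ℂ_[p])‖) :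
    nsh p x = ‖(y : ℂ_[p])‖ ^ p ^ n := by
  rw [← nsh_seqT x n]
  congr 1
  rw [← mk_seqT, Ideal.Quotient.eq, ← Ideal.Quotient.eq_zero_iff_mem, mk_eq_zero_iff] at hy
  have h2 : ‖((seqT x n : 𝓞_ℂ_[p]) : ℂ_[p]) - (y : ℂ_[p])‖ ≤ ‖(p : ℂ_[p])‖ := hy
  have e : ((seqT x n : 𝓞_ℂ_[p]) : ℂ_[p]) =
      (((seqT x n : 𝓞_ℂ_[p]) : ℂ_[p]) - (y : ℂ_[p])) + (y : ℂ_[p]) := by ring
  rw [e, IsUltrametricDist.norm_add_eq_max_of_norm_ne_norm (by
    exact (lt_of_le_of_lt h2 h).ne)]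
  exact max_eq_right (h2.trans h.le)

variable (p)

/-- The `p`-th root of `ε`. -/
noncomputable def eps1 : TT p :=
  mkA (fun n => zeta p (n + 1)) (fun n => norm_zeta p (n + 1)) (fun n => zeta_succ p (n + 1))

theorem eps1_pow : eps1 p ^ p = eps p := by
  have h1 : ∀ k, ‖zeta p (k + 1) ^ p‖ = 1 := fun k => by rw [zeta_succ, norm_zeta]
  have h2 : ∀ k, (zeta p (k + 1 + 1) ^ p) ^ p = zeta p (k + 1) ^ p := fun k => by
    rw [zeta_succ p (k + 1)]
  rw [eps1, ← mkA_pow (fun n => zeta p (n + 1)) _ _ p h1 h2, eps]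
  congr 1
  funext k
  exact zeta_succ p k

theorem norm_zeta_one_sub : ‖zeta p 2 - 1‖ ^ (p * (p - 1)) = (p : ℝ)⁻¹ := by
  have h := norm_sub_one_pow_totient (n := 1) (zeta_prim p 2)
  rwa [Nat.totient_prime_pow hp.out (by norm_num), pow_one] at h

theorem norm_zeta_two_gt : (p : ℝ)⁻¹ < ‖zeta p 2 - 1‖ := by
  by_contra hcon
  push Not at hcon
  have h := norm_zeta_one_sub p
  have hp2 := hp.out.two_le
  have hpR : (1 : ℝ) < p := one_lt_p p
  have h1 : ‖zeta p 2 - 1‖ ^ (p * (p - 1)) ≤ ((p : ℝ)⁻¹) ^ (p * (p - 1)) :=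
    pow_le_pow_left₀ (norm_nonneg _) hcon _
  have h2 : 2 ≤ p * (p - 1) := by
    calc 2 ≤ p := hp2
      _ = p * 1 := (mul_one p).symm
      _ ≤ p * (p - 1) := Nat.mul_le_mul_left p (by omega)
  have h3 : ((p : ℝ)⁻¹) ^ (p * (p - 1)) ≤ ((p : ℝ)⁻¹) ^ 2 :=
    pow_le_pow_of_le_one (by positivity) (inv_le_one_of_one_le₀ hpR.le) h2
  have h4 : ((p : ℝ)⁻¹) ^ 2 < (p : ℝ)⁻¹ := by
    rw [pow_two]
    have h5 : (p : ℝ)⁻¹ < 1 := inv_lt_one_of_one_lt₀ hpR
    have h6 : 0 < (p : ℝ)⁻¹ := by positivity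
    nlinarith
  linarith

theorem nsh_eps1_sub_one : nsh p (eps1 p - 1) ^ (p - 1) = (p : ℝ)⁻¹ := by
  have h1 : PreTilt.coeff 1 (eps1 p - 1) =
      Ideal.Quotient.mk _ (ofAlg (zeta p 2) (norm_zeta p 2).le - 1) := by
    rw [map_sub, map_one, map_sub, map_one]
    rfl
  have h2 : (((ofAlg (zeta p 2) (norm_zeta p 2).le - 1 : 𝓞_ℂ_[p])) : ℂ_[p]) =
      ((zeta p 2 - 1 : PadicAlgCl p) : ℂ_[p]) := by
    rw [coe_sub_alg, coe_one_alg]
    rfl
  have h3 : ‖(((ofAlg (zeta p 2) (norm_zeta p 2).le - 1 : 𝓞_ℂ_[p])) : ℂ_[p])‖ =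
      ‖zeta p 2 - 1‖ := by rw [h2, PadicComplex.norm_extends]
  have h4 := nsh_of_coeff (eps1 p - 1) 1 _ h1 (by
    rw [h3, norm_p]; exact norm_zeta_two_gt p)
  rw [h4, h3, pow_one, ← pow_mul, norm_zeta_one_sub]

theorem eps1_ne_one : eps1 p - 1 ≠ 0 := by
  intro h
  have h1 := nsh_eps1_sub_one p
  rw [h] at h1
  have h2 : nsh p (0 : TT p) = 0 := by
    have h7 : fontaineTheta 𝓞_ℂ_[p] p (teichmuller p (0 : TT p)) = 0 := by
      rw [WittVector.teichmuller_zero, map_zero]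
    rw [fontaineTheta_teichmuller] at h7
    rw [nsh, h7]
    simp
  have hp2 := hp.out.two_le
  rw [h2, zero_pow (by omega)] at h1
  have : (0 : ℝ) < (p : ℝ)⁻¹ := inv_pos.2 (by exact_mod_cast hp.out.pos)
  linarith

theorem sum_eps1 : ∑ i ∈ Finset.range p, eps1 p ^ i = (eps1 p - 1) ^ (p - 1) := by
  have hc : CharP (TT p) p := inferInstance
  have h1 : (∑ i ∈ Finset.range p, eps1 p ^ i) * (eps1 p - 1) = eps1 p ^ p - 1 :=
    geom_sum_mul _ _
  have h2 : (eps1 p - 1) ^ p = eps1 p ^ p - 1 := by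
    rw [sub_pow_char, one_pow]
  have h3 : (eps1 p - 1) ^ (p - 1) * (eps1 p - 1) = (eps1 p - 1) ^ p := by
    rw [← pow_succ]
    congr 1
    have := hp.out.two_le
    omega
  apply mul_right_cancel₀ (eps1_ne_one p)
  rw [h1, h3, h2]

theorem untilt_eps1 : (((eps1 p).untilt : 𝓞_ℂ_[p]) : ℂ_[p]) = (zeta p 1 : PadicAlgCl p) := by
  rw [eps1, untilt_mkA]

/-- The element `1 + [ε^(1/p)] + ... + [ε^(1/p)]^(p-1)`. -/
noncomputable def om : AI p := ∑ i ∈ Finset.range p, teichmuller p (eps1 p) ^ i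

theorem om_mul : om p * (teichmuller p (eps1 p) - 1) = teichmuller p (eps p) - 1 := by
  rw [om, geom_sum_mul, ← map_pow, eps1_pow]

theorem zeta_one_ne : (zeta p 1 : PadicAlgCl p) ≠ 1 := by
  intro h
  have h1 := (zeta_prim p 1)
  rw [pow_one] at h1
  exact h1.ne_one hp.out.one_lt h

theorem theta_om : fontaineTheta 𝓞_ℂ_[p] p (om p) = 0 := by
  have h := congrArg (fontaineTheta 𝓞_ℂ_[p] p) (om_mul p)
  rw [nu_spec, map_mul (fontaineTheta 𝓞_ℂ_[p] p) (xi p), theta_xi, zero_mul, map_mul, map_sub,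
    map_one, fontaineTheta_teichmuller] at h
  refine (mul_eq_zero.1 h).resolve_right ?_
  intro h1
  have h2 := congrArg (fun x : 𝓞_ℂ_[p] => (x : ℂ_[p])) (sub_eq_zero.1 h1)
  have h3 : (((eps1 p).untilt : 𝓞_ℂ_[p]) : ℂ_[p]) = 1 := by simpa using h2
  rw [untilt_eps1, ← coe_one_alg] at h3
  exact zeta_one_ne p (UniformSpace.Completion.coe_injective _ h3)

theorem exists_nu' : ∃ v : AI p, om p = xi p * v := xi_dvd_of_theta_eq_zero (theta_om p)

theorem coeff_zero_mul (x y : AI p) : (x * y).coeff 0 = x.coeff 0 * y.coeff 0 :=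
  WittVector.mul_coeff_zero x y

theorem coeff_zero_p : ((p : AI p)).coeff 0 = 0 := WittVector.coeff_p_zero p (TT p)

theorem xi_coeff_zero : (xi p).coeff 0 = pflat p := by
  have h : (xi p).coeff 0 = WittVector.constantCoeff (xi p) := rfl
  rw [h, xi, map_sub]
  change (teichmuller p (pflat p)).coeff 0 - ((p : AI p)).coeff 0 = _
  rw [coeff_zero_p, sub_zero, WittVector.teichmuller_coeff_zero]

theorem om_coeff_zero : (om p).coeff 0 = ∑ i ∈ Finset.range p, eps1 p ^ i := by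
  have h : (om p).coeff 0 = WittVector.constantCoeff (om p) := rfl
  rw [h, om, map_sum]
  refine Finset.sum_congr rfl fun i _ => ?_
  rw [map_pow]
  congr 1

theorem nsh_pflat : nsh p (pflat p) = (p : ℝ)⁻¹ := by
  rw [nsh, untilt_pflat, ← norm_p]
  simp

/-- `θ` modulo `p`. -/
theorem theta_sub_untilt (x : AI p) :
    ‖((fontaineTheta 𝓞_ℂ_[p] p x : 𝓞_ℂ_[p]) : ℂ_[p]) -
      (((x.coeff 0).untilt : 𝓞_ℂ_[p]) : ℂ_[p])‖ ≤ ‖(p : ℂ_[p])‖ := by
  obtain ⟨z, hz⟩ := exists_eq_teichmuller_add x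
  have h : ((fontaineTheta 𝓞_ℂ_[p] p x : 𝓞_ℂ_[p]) : ℂ_[p]) -
      (((x.coeff 0).untilt : 𝓞_ℂ_[p]) : ℂ_[p]) = (p : ℂ_[p]) *
        ((fontaineTheta 𝓞_ℂ_[p] p z : 𝓞_ℂ_[p]) : ℂ_[p]) := by
    nth_rw 1 [hz]
    rw [map_add, map_mul, fontaineTheta_teichmuller, map_natCast]
    simp
  rw [h, norm_mul]
  exact mul_le_of_le_one_right (norm_nonneg _) (norm_int_le p _)

theorem ww_ne_zero : ww p ≠ 0 := by
  obtain ⟨v, hv⟩ := exists_nu' p
  have hnu : nu p = v * (teichmuller p (eps1 p) - 1) := by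
    have h1 := om_mul p
    rw [nu_spec, hv, mul_assoc] at h1
    have hx : xi p ≠ 0 := by
      intro h0
      apply xiL_ne_zero p
      rw [xiL, h0, map_zero]
    exact (mul_left_cancel₀ hx h1).symm
  have h2 : ww p = ((fontaineTheta 𝓞_ℂ_[p] p v : 𝓞_ℂ_[p]) : ℂ_[p]) *
      (((zeta p 1 : PadicAlgCl p) : ℂ_[p]) - 1) := by
    rw [ww, hnu, map_mul, map_sub, map_one, fontaineTheta_teichmuller, ← untilt_eps1]
    simp
  rw [h2]
  apply mul_ne_zero
  · -- `θ v` has norm one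
    have h3 : pflat p * v.coeff 0 = (eps1 p - 1) ^ (p - 1) := by
      rw [← sum_eps1, ← om_coeff_zero, hv, coeff_zero_mul, xi_coeff_zero]
    have h4 := congrArg (nsh p) h3
    rw [nsh_mul, nsh_pflat, nsh_pow, nsh_eps1_sub_one] at h4
    have hpp : (0 : ℝ) < (p : ℝ)⁻¹ := inv_pos.2 (by exact_mod_cast hp.out.pos)
    have h5 : nsh p (v.coeff 0) = 1 := by
      have := mul_left_cancel₀ hpp.ne' (h4.trans (mul_one _).symm)
      exact this
    intro h6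
    have h7 := theta_sub_untilt p v
    rw [h6, zero_sub, norm_neg] at h7
    change nsh p (v.coeff 0) ≤ _ at h7
    rw [h5] at h7
    exact absurd (norm_p_lt_one p) (not_lt.2 h7)
  · rw [sub_ne_zero, ← coe_one_alg]
    exact fun h => zeta_one_ne p (UniformSpace.Completion.coe_injective _ h)

end Pool.Agent.Y804.FM
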