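import Pool.Agent.Y804.FM.Tate
import Pool.Agent.Y804.FM.Wne

/-!
A character of the Galois group of `ℚ_[p]` none of whose twists by powers of the cyclotomic
character has finite order has no eigenvector in the field of de Rham periods.
-/

set_option autoImplicit false
set_option linter.unusedSectionVars false

namespace Pool.Agent.Y804.FM

open Pool.Agent.W292.FM

variable (p : ℕ) [hp : Fact p.Prime]

/-- The leading coefficient of an eigenvector of a set of elements of the Galois group. -/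
theorem exists_leading_on {b : BD p} (hb : b ≠ 0) (S : Set Gal(PadicAlgCl p/ℚ_[p]))
    (c : Gal(PadicAlgCl p/ℚ_[p]) → ℚ_[p])
    (h : ∀ g ∈ S, bdrMap p (intMap p g) b = algebraMap ℚ_[p] (BD p) (c g) * b) :
    ∃ (m n : ℕ) (x : ℂ_[p]), x ≠ 0 ∧ ∀ g ∈ S,
      algebraMap ℚ_[p] ℂ_[p] (c g) * thC p (coc p g) ^ m * x =
        thC p (coc p g) ^ n * cpMap p g x := by
  obtain ⟨m, n, z, hz, hz0⟩ := exists_eq_BD p hb
  refine ⟨m, n, thP p z, hz0, fun g hg => ?_⟩
  have h1 := congrArg (bdrMap p (intMap p g)) hz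
  have h1' : plusMap p (intMap p g) (xiP p ^ n * z) =
      (toPlus p (coc p g) * xiP p) ^ n * plusMap p (intMap p g) z := by
    rw [map_mul, map_pow, plusMap_xiP]
  rw [map_mul, map_pow, h g hg, bdrMap_algebraMap, bdrMap_algebraMap, h1', plusMap_xiP] at h1
  have h2 : algebraMap ℚ_[p] (BD p) (c g) =
      algebraMap (BP p) (BD p) (algebraMap ℚ_[p] (BP p) (c g)) := algebraMap_bdr _ p (c g)
  have h3 : algebraMap (BP p) (BD p) (xiP p ^ n * (algebraMap ℚ_[p] (BP p) (c g) *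
      toPlus p (coc p g) ^ m * z)) =
      algebraMap (BP p) (BD p) (xiP p ^ n * (toPlus p (coc p g) ^ n *
        plusMap p (intMap p g) z)) := by
    calc algebraMap (BP p) (BD p) (xiP p ^ n * (algebraMap ℚ_[p] (BP p) (c g) *
          toPlus p (coc p g) ^ m * z))
        = algebraMap (BP p) (BD p) (algebraMap ℚ_[p] (BP p) (c g)) *
            algebraMap (BP p) (BD p) (toPlus p (coc p g)) ^ m *
            algebraMap (BP p) (BD p) (xiP p ^ n * z) := by
          simp only [map_mul, map_pow]; ring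
      _ = algebraMap ℚ_[p] (BD p) (c g) * b *
            algebraMap (BP p) (BD p) (toPlus p (coc p g) * xiP p) ^ m := by
          rw [← hz, h2, map_mul]; ring
      _ = _ := by
          rw [h1]
          simp only [map_mul, map_pow]; ring
  have h4 := xiP_pow_mul_cancel p n (algebraMap_BD_injective p h3)
  have h5 := congrArg (thP p) h4
  simpa only [map_mul, map_pow, thP_toPlus, thP_algebraMap, thP_plusMap] using h5

theorem coe_chi_ne_zero (g : Gal(PadicAlgCl p/ℚ_[p])) : ((chi p g : ℤ_[p]) : ℚ_[p]) ≠ 0 := by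
  intro h
  exact (chi p g).ne_zero (Subtype.ext (by rw [h]; rfl))

/-- An eigenvector in `BDeRham` gives an eigenvector in `ℂ_[p]` for a twist of the character. -/
theorem exists_eigen_C {b : BD p} (hb : b ≠ 0) (S : Set Gal(PadicAlgCl p/ℚ_[p]))
    (c : Gal(PadicAlgCl p/ℚ_[p]) → ℚ_[p])
    (h : ∀ g ∈ S, bdrMap p (intMap p g) b = algebraMap ℚ_[p] (BD p) (c g) * b) :
    ∃ (k : ℤ) (x : ℂ_[p]), x ≠ 0 ∧ ∀ g ∈ S,
      cpMap p g x = algebraMap ℚ_[p] ℂ_[p] (c g * ((chi p g : ℤ_[p]) : ℚ_[p]) ^ k) * x := by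
  obtain ⟨m, n, x, hx, hx2⟩ := exists_leading_on p hb S c h
  have hw := ww_ne_zero p
  refine ⟨(m : ℤ) - n, x * ww p ^ m / ww p ^ n, ?_, fun g hg => ?_⟩
  · exact div_ne_zero (mul_ne_zero hx (pow_ne_zero _ hw)) (pow_ne_zero _ hw)
  have h1 := cocycle_eq (p := p) g
  have hgw : cpMap p g (ww p) ≠ 0 := by
    intro h0
    exact hw ((map_eq_zero_iff (cpMap p g) (cpMap p g).injective).1 h0)
  have hchi : algebraMap ℚ_[p] ℂ_[p] ((chi p g : ℤ_[p]) : ℚ_[p]) ≠ 0 := by
    rw [Ne, map_eq_zero_iff _ (algebraMap ℚ_[p] ℂ_[p]).injective]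
    exact coe_chi_ne_zero p g
  set C := algebraMap ℚ_[p] ℂ_[p] ((chi p g : ℤ_[p]) : ℚ_[p]) with hC
  set α := thC p (coc p g) with hα
  set W := cpMap p g (ww p) with hW
  have hα0 : α ≠ 0 := by
    intro h0
    rw [h0, zero_mul] at h1
    exact mul_ne_zero hchi hw h1.symm
  have h2 := hx2 g hg
  rw [map_div₀, map_mul, map_pow, map_pow, map_mul, map_zpow₀, ← hW, ← hC]
  rw [zpow_sub₀ hchi, zpow_natCast, zpow_natCast]
  have h4 : cpMap p g x = algebraMap ℚ_[p] ℂ_[p] (c g) * α ^ m * x / α ^ n := by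
    rw [eq_div_iff (pow_ne_zero _ hα0), h2]; ring
  have h5 : α = C * ww p / W := by rw [eq_div_iff hgw, h1]
  rw [h4, h5, div_pow, div_pow, mul_pow, mul_pow]
  field_simp

/-- A unit close to `1` and different from `1` is not a root of unity. -/
theorem pow_ne_one_of_close {u : ℤ_[p]} (h1 : ‖u - 1‖ ≤ (p : ℝ) ^ (-2 : ℤ)) (h2 : u ≠ 1) {M : ℕ}
    (hM : M ≠ 0) : u ^ M ≠ 1 := by
  have hpR : (1 : ℝ) < p := one_lt_p p
  have hp0 : (0 : ℝ) < p := by linarith
  have hsmall : (p : ℝ) ^ (-2 : ℤ) < (p : ℝ)⁻¹ := by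
    rw [← zpow_neg_one]
    exact zpow_lt_zpow_right₀ hpR (by norm_num)
  have hpow : ∀ (v : ℤ_[p]), ‖v - 1‖ ≤ (p : ℝ) ^ (-2 : ℤ) → ∀ i : ℕ,
      ‖v ^ i - 1‖ ≤ (p : ℝ) ^ (-2 : ℤ) := by
    intro v hv i
    have h3 := geom_sum_mul v i
    rw [← h3, norm_mul]
    exact (mul_le_of_le_one_left (norm_nonneg _) (PadicInt.norm_le_one _)).trans hv
  have hsum : ∀ (v : ℤ_[p]), ‖v - 1‖ ≤ (p : ℝ) ^ (-2 : ℤ) → ∀ i : ℕ,
      ‖(∑ j ∈ Finset.range i, v ^ j) - i‖ ≤ (p : ℝ) ^ (-2 : ℤ) := by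
    intro v hv i
    have h3 : (∑ j ∈ Finset.range i, v ^ j) - (i : ℤ_[p]) = ∑ j ∈ Finset.range i, (v ^ j - 1) := by
      rw [Finset.sum_sub_distrib]; simp
    rw [h3]
    exact IsUltrametricDist.norm_sum_le_of_forall_le_of_nonneg (by positivity)
      fun j _ => hpow v hv j
  have hne : ∀ (v : ℤ_[p]), ‖v - 1‖ ≤ (p : ℝ) ^ (-2 : ℤ) → v ≠ 1 → ∀ i : ℕ,
      (p : ℝ) ^ (-2 : ℤ) < ‖(i : ℤ_[p])‖ → v ^ i ≠ 1 := by
    intro v hv hv1 i hi h4
    have h3 := geom_sum_mul v i
    rw [h4, sub_self] at h3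
    have h5 := (mul_eq_zero.1 h3).resolve_right (sub_ne_zero.2 hv1)
    have h6 := hsum v hv i
    rw [h5, zero_sub, norm_neg] at h6
    exact absurd hi (not_lt.2 h6)
  induction M using Nat.strong_induction_on generalizing u with
  | _ M ih =>
  by_cases hd : p ∣ M
  · obtain ⟨M', rfl⟩ := hd
    rw [pow_mul]
    have hM' : M' ≠ 0 := by rintro rfl; simp at hM
    refine ih M' ?_ (hpow u h1 p) ?_ hM'
    · have := hp.out.two_le
      have h7 : 0 < M' := Nat.pos_of_ne_zero hM'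
      nlinarith
    · refine hne u h1 h2 p ?_
      rw [PadicInt.norm_p]; exact hsmall
  · refine hne u h1 h2 M ?_
    have h7 : ‖(M : ℤ_[p])‖ = 1 := by
      have h8 : ‖((M : ℚ_[p]))‖ = 1 := by
        rw [Padic.norm_natCast_eq_one_iff]
        exact (Nat.Prime.coprime_iff_not_dvd hp.out).2 hd
      rw [PadicInt.norm_def]; push_cast; exact h8
    rw [h7]
    exact hsmall.trans (inv_lt_one_of_one_lt₀ hpR)

/-- Elements of the Galois group close to the identity on the cyclotomic tower. -/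
theorem exists_chi_close (n : ℕ) : ∃ g : Gal(PadicAlgCl p/ℚ_[p]), g (zeta p n) = zeta p n ∧
    ‖((chi p g : ℤ_[p])) - 1‖ ≤ (p : ℝ) ^ (-2 : ℤ) ∧ (chi p g : ℤ_[p]) ≠ 1 := by
  set N := n + 2 with hN
  obtain ⟨g, hg⟩ := exists_conj (p := p) (N - 1) 1 1
  have e1 : N - 1 + 1 + 1 = N + 1 := by omega
  have e2 : N - 1 + 1 = N := by omega
  rw [e1, e2, mul_one] at hg
  have hgN : g (zeta p N) = zeta p N := by
    rw [← zeta_succ p N, map_pow, hg, ← pow_mul, add_mul, one_mul, ← pow_succ, pow_add,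
      (zeta_prim p (N + 1)).pow_eq_one, mul_one]
  refine ⟨g, zeta_fix_of_le (by omega) hgN, ?_, ?_⟩
  · have h1 := chi_spec g 2 (zeta p 2) (zeta_prim p 2).pow_eq_one
    rw [zeta_fix_of_le (show 2 ≤ N by omega) hgN] at h1
    have h2 : (PadicInt.toZModPow 2 (chi p g : ℤ_[p])) = 1 := by
      have hlt : 1 < p ^ 2 := one_lt_pow₀ hp.out.one_lt two_ne_zero
      have h3 := (zeta_prim p 2).pow_inj (ZMod.val_lt _) hlt (by rw [← h1, pow_one])
      have : NeZero (p ^ 2) := ⟨by positivity⟩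
      apply ZMod.val_injective
      rw [h3, ZMod.val_one'' hlt.ne']
    have h4 : (chi p g : ℤ_[p]) - 1 ∈ RingHom.ker (PadicInt.toZModPow (p := p) 2) := by
      rw [RingHom.mem_ker, map_sub, h2, map_one, sub_self]
    rw [PadicInt.ker_toZModPow] at h4
    exact (PadicInt.norm_le_pow_iff_mem_span_pow _ 2).2 h4
  · intro h1
    have h2 := chi_spec g (N + 1) (zeta p (N + 1)) (zeta_prim p (N + 1)).pow_eq_one
    have hlt : 1 < p ^ (N + 1) := one_lt_pow₀ hp.out.one_lt (by omega)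
    rw [h1, map_one, ZMod.val_one'' hlt.ne', pow_one, hg, pow_add, pow_one] at h2
    have h3 : zeta p (N + 1) ^ p ^ N = 1 := by
      have := mul_left_cancel₀ (zeta_ne_zero p (N + 1)) (h2.trans (mul_one _).symm)
      exact this
    have h4 := (zeta_prim p (N + 1)).dvd_of_pow_eq_one _ h3
    have h5 := Nat.le_of_dvd (pow_pos hp.out.pos _) h4
    have h6 : p ^ N < p ^ (N + 1) := Nat.pow_lt_pow_right hp.out.one_lt (Nat.lt_succ_self N)
    omega

/-- The main statement: if `c ^ (2 M)` is the `M`-th power of the cyclotomic character (`M ≠ 0`),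
then `c` has no eigenvector in `BDeRham`, even on an open subgroup. -/
theorem no_eigen {N M : ℕ} (hM : M ≠ 0) (c : Gal(PadicAlgCl p/ℚ_[p]) → ℚ_[p])
    (hc1 : ∀ g, g (zeta p N) = zeta p N →
      c g ^ (2 * M) = ((chi p g : ℤ_[p]) : ℚ_[p]) ^ M)
    (hc0 : ∀ g, (∀ n, g (zeta p n) = zeta p n) → c g = 1) {b : BD p}
    (hb : ∀ g, g (zeta p N) = zeta p N →
      bdrMap p (intMap p g) b = algebraMap ℚ_[p] (BD p) (c g) * b) : b = 0 := by
  by_contra hne
  obtain ⟨k, x, hx, hx2⟩ := exists_eigen_C p hne {g | g (zeta p N) = zeta p N} c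
    (fun g hg => hb g hg)
  -- extend by `1` outside the open subgroup
  classical
  set η : Gal(PadicAlgCl p/ℚ_[p]) → ℚ_[p] := fun g =>
    if g (zeta p N) = zeta p N then c g * ((chi p g : ℤ_[p]) : ℚ_[p]) ^ k else 1 with hη
  have hchi1 : ∀ g, ‖((chi p g : ℤ_[p]) : ℚ_[p])‖ = 1 := fun g => by
    have := PadicInt.norm_units (chi p g)
    rw [PadicInt.norm_def] at this
    exact this
  have hcn : ∀ g, g (zeta p N) = zeta p N → ‖c g‖ = 1 := by
    intro g hg
    have h1 := congrArg norm (hc1 g hg)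
    rw [norm_pow, norm_pow, hchi1, one_pow] at h1
    exact (pow_eq_one_iff_of_nonneg (norm_nonneg _) (by omega)).1 h1
  apply hx
  refine tate N η ?_ ?_ ?_ ?_
  · intro g
    simp only [hη]
    split_ifs with hg
    · rw [norm_mul, norm_zpow, hchi1, one_zpow, hcn g hg, mul_one]
    · rw [norm_one]
  · intro g hg
    simp only [hη]
    rw [if_pos (hg N), hc0 g hg, one_mul]
    have h1 : (chi p g : ℤ_[p]) = 1 := by
      refine PadicInt.ext_of_toZModPow.1 fun n => ?_
      have : NeZero (p ^ n) := ⟨(pow_pos hp.out.pos n).ne'⟩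
      have h2 := chi_spec g n (zeta p n) (zeta_prim p n).pow_eq_one
      rw [hg n] at h2
      rcases Nat.eq_zero_or_pos n with rfl | hn
      · have : Subsingleton (ZMod (p ^ 0)) := by rw [pow_zero]; infer_instance
        exact Subsingleton.elim _ _
      have hlt : 1 < p ^ n := one_lt_pow₀ hp.out.one_lt hn.ne'
      have h3 := (zeta_prim p n).pow_inj (ZMod.val_lt _) hlt (by rw [← h2, pow_one])
      apply ZMod.val_injective
      rw [h3, map_one, ZMod.val_one'' hlt.ne']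
    rw [h1]
    simp
  · intro n
    obtain ⟨g, hg1, hg2, hg3⟩ := exists_chi_close p (max n N)
    refine ⟨g, zeta_fix_of_le (le_max_left _ _) hg1, ?_⟩
    have hgN : g (zeta p N) = zeta p N := zeta_fix_of_le (le_max_right _ _) hg1
    simp only [hη]
    rw [if_pos hgN]
    intro h1
    have h2 := congrArg (fun y => y ^ (2 * M)) h1
    simp only [one_pow, mul_pow] at h2
    rw [hc1 g hgN, ← zpow_natCast, ← zpow_natCast, ← zpow_mul] at h2
    have hne0 := coe_chi_ne_zero p g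
    rw [← zpow_add₀ hne0] at h2
    set e : ℤ := (M : ℤ) + k * ((2 * M : ℕ) : ℤ) with he
    have he0 : e ≠ 0 := by
      have : e = M * (1 + 2 * k) := by rw [he]; push_cast; ring
      rw [this]
      apply mul_ne_zero (by exact_mod_cast hM)
      omega
    have h3 : ((chi p g : ℤ_[p]) : ℚ_[p]) ^ e.natAbs = 1 := by
      rcases Int.natAbs_eq e with h4 | h4
      · rw [← zpow_natCast, ← h4]; exact h2
      · rw [← zpow_natCast]
        have h5 : ((e.natAbs : ℤ)) = -e := by omega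
        rw [h5, zpow_neg, h2, inv_one]
    have h4 : (chi p g : ℤ_[p]) ^ e.natAbs = 1 := by
      apply Subtype.ext
      rw [PadicInt.coe_pow, PadicInt.coe_one]
      exact h3
    exact pow_ne_one_of_close p hg2 hg3 (Int.natAbs_ne_zero.2 he0) h4
  · intro g hg
    simp only [hη]
    rw [if_pos hg]
    exact hx2 g hg

end Pool.Agent.Y804.FM
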