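import Pool.Agent.Y804.FM.Bdr

/-!
The element `π = [ε] - 1` of `A_inf`, and the action of the Galois group on it modulo the square of
the kernel of `θ`.
-/

set_option autoImplicit false
set_option linter.unusedSectionVars false

namespace Pool.Agent.Y804.FM

open Ideal WittVector Pool.Agent.W292.FM

variable (p : ℕ) [hp : Fact p.Prime]

theorem exists_succ_root (n : ℕ) {z : PadicAlgCl p} (hz : IsPrimitiveRoot z (p ^ n)) :
    ∃ w : PadicAlgCl p, IsPrimitiveRoot w (p ^ (n + 1)) ∧ w ^ p = z := by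
  have hne : NeZero ((p ^ (n + 1) : ℕ) : PadicAlgCl p) :=
    ⟨by exact_mod_cast pow_ne_zero _ hp.out.ne_zero⟩
  obtain ⟨v, hv⟩ := HasEnoughRootsOfUnity.exists_primitiveRoot (PadicAlgCl p) (p ^ (n + 1))
  have hvp : IsPrimitiveRoot (v ^ p) (p ^ n) :=
    hv.pow (pow_pos hp.out.pos _) (by rw [pow_succ'])
  rcases Nat.eq_zero_or_pos n with rfl | hn
  · refine ⟨v, hv, ?_⟩
    rw [pow_zero, IsPrimitiveRoot.one_right_iff] at hz hvp
    rw [hz, hvp]
  · have : NeZero (p ^ n) := ⟨pow_ne_zero _ hp.out.ne_zero⟩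
    obtain ⟨i, _, hi, hiz⟩ := (hvp.isPrimitiveRoot_iff (k := p ^ n)).1 hz
    refine ⟨v ^ i, hv.pow_of_coprime i ?_, ?_⟩
    · rw [Nat.coprime_pow_right_iff (by omega)] at hi ⊢
      exact hi
    · rw [← hiz, ← pow_mul, ← pow_mul, mul_comm]

theorem exists_zeta : ∃ z : ℕ → PadicAlgCl p, (∀ n, IsPrimitiveRoot (z n) (p ^ n)) ∧
    ∀ n, z (n + 1) ^ p = z n := by
  classical
  let f : (n : ℕ) → {z : PadicAlgCl p // IsPrimitiveRoot z (p ^ n)} := fun n =>
    Nat.rec ⟨1, by rw [pow_zero]; exact IsPrimitiveRoot.one⟩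
      (fun n z => ⟨(exists_succ_root p n z.2).choose, (exists_succ_root p n z.2).choose_spec.1⟩) n
  exact ⟨fun n => (f n).1, fun n => (f n).2, fun n => (exists_succ_root p n (f n).2).choose_spec.2⟩

/-- a compatible system of primitive `p ^ n`-th roots of unity -/
noncomputable def zeta : ℕ → PadicAlgCl p := (exists_zeta p).choose

theorem zeta_prim (n : ℕ) : IsPrimitiveRoot (zeta p n) (p ^ n) := (exists_zeta p).choose_spec.1 n

theorem zeta_succ (n : ℕ) : zeta p (n + 1) ^ p = zeta p n := (exists_zeta p).choose_spec.2 n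

theorem zeta_zero : zeta p 0 = 1 := by
  have := zeta_prim p 0
  rwa [pow_zero, IsPrimitiveRoot.one_right_iff] at this

theorem zeta_add_pow (k n : ℕ) : zeta p (k + n) ^ p ^ n = zeta p k := by
  induction n with
  | zero => simp
  | succ n ih => rw [pow_succ', pow_mul, ← add_assoc, zeta_succ, ih]

theorem norm_zeta (n : ℕ) : ‖zeta p n‖ = 1 :=
  norm_rootOfUnity (pow_ne_zero n hp.out.ne_zero) (zeta_prim p n).pow_eq_one

theorem zeta_ne_zero (n : ℕ) : zeta p n ≠ 0 := by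
  rw [← norm_pos_iff, norm_zeta]; exact one_pos

variable {p}

/-- An element of `PadicAlgCl p` of norm at most one as an element of the ring of integers of
`ℂ_[p]`. -/
noncomputable def ofAlg (x : PadicAlgCl p) (hx : ‖x‖ ≤ 1) : 𝓞_ℂ_[p] :=
  ⟨(x : ℂ_[p]), (mem_int_iff p _).2 (by rwa [PadicComplex.norm_extends])⟩

theorem coe_ofAlg (x : PadicAlgCl p) (hx : ‖x‖ ≤ 1) : ((ofAlg x hx : 𝓞_ℂ_[p]) : ℂ_[p]) = x := rfl

theorem coe_pow_alg (x : PadicAlgCl p) (n : ℕ) : ((x ^ n : PadicAlgCl p) : ℂ_[p]) =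
    (x : ℂ_[p]) ^ n := by
  rw [PadicComplex.coe_eq, PadicComplex.coe_eq, map_pow]

theorem coe_mul_alg (x y : PadicAlgCl p) : ((x * y : PadicAlgCl p) : ℂ_[p]) =
    (x : ℂ_[p]) * (y : ℂ_[p]) := by
  rw [PadicComplex.coe_eq, PadicComplex.coe_eq, PadicComplex.coe_eq, map_mul]

theorem coe_one_alg : ((1 : PadicAlgCl p) : ℂ_[p]) = 1 := by
  rw [PadicComplex.coe_eq, map_one]

theorem coe_sub_alg (x y : PadicAlgCl p) : ((x - y : PadicAlgCl p) : ℂ_[p]) =
    (x : ℂ_[p]) - (y : ℂ_[p]) := by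
  rw [PadicComplex.coe_eq, PadicComplex.coe_eq, PadicComplex.coe_eq, map_sub]

/-- a compatible system of elements of norm one gives an element of the tilt -/
noncomputable def mkA (a : ℕ → PadicAlgCl p) (h1 : ∀ n, ‖a n‖ = 1) (h2 : ∀ n, a (n + 1) ^ p = a n) :
    TT p :=
  mkT (fun n => ofAlg (a n) (h1 n).le) (fun n => Subtype.ext (by
    rw [SubmonoidClass.coe_pow, coe_ofAlg, coe_ofAlg, ← coe_pow_alg, h2]))

theorem untilt_mkA (a : ℕ → PadicAlgCl p) (h1 : ∀ n, ‖a n‖ = 1) (h2 : ∀ n, a (n + 1) ^ p = a n) :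
    (((mkA a h1 h2).untilt : 𝓞_ℂ_[p]) : ℂ_[p]) = a 0 := by
  rw [mkA, untilt_mkT, coe_ofAlg]

theorem mkA_mul (a b : ℕ → PadicAlgCl p) (h1 : ∀ n, ‖a n‖ = 1) (h2 : ∀ n, a (n + 1) ^ p = a n)
    (k1 : ∀ n, ‖b n‖ = 1) (k2 : ∀ n, b (n + 1) ^ p = b n) (l1 : ∀ n, ‖a n * b n‖ = 1)
    (l2 : ∀ n, (a (n + 1) * b (n + 1)) ^ p = a n * b n) :
    mkA (fun n => a n * b n) l1 l2 = mkA a h1 h2 * mkA b k1 k2 := by
  refine Perfection.ext fun n => ?_
  change PreTilt.coeff n _ = PreTilt.coeff n _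
  rw [map_mul, mkA, mkA, mkA, coeff_mkT, coeff_mkT, coeff_mkT, ← map_mul]
  congr 1
  apply Subtype.ext
  rw [Subring.coe_mul] 
  exact coe_mul_alg _ _

theorem mkA_pow (a : ℕ → PadicAlgCl p) (h1 : ∀ n, ‖a n‖ = 1) (h2 : ∀ n, a (n + 1) ^ p = a n)
    (m : ℕ) (l1 : ∀ n, ‖a n ^ m‖ = 1) (l2 : ∀ n, (a (n + 1) ^ m) ^ p = a n ^ m) :
    mkA (fun n => a n ^ m) l1 l2 = mkA a h1 h2 ^ m := by
  refine Perfection.ext fun n => ?_
  change PreTilt.coeff n _ = PreTilt.coeff n _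
  rw [map_pow, mkA, mkA, coeff_mkT, coeff_mkT, ← map_pow]
  congr 1
  apply Subtype.ext
  rw [SubmonoidClass.coe_pow]
  exact coe_pow_alg _ _

theorem tiltMap_mkA (g : Gal(PadicAlgCl p/ℚ_[p])) (a : ℕ → PadicAlgCl p) (h1 : ∀ n, ‖a n‖ = 1)
    (h2 : ∀ n, a (n + 1) ^ p = a n) (l1 : ∀ n, ‖g (a n)‖ = 1)
    (l2 : ∀ n, g (a (n + 1)) ^ p = g (a n)) :
    tiltMap p (intMap p g) (mkA a h1 h2) = mkA (fun n => g (a n)) l1 l2 := by
  refine Perfection.ext fun n => ?_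
  change PreTilt.coeff n _ = PreTilt.coeff n _
  rw [coeff_tiltMap, mkA, mkA, coeff_mkT, coeff_mkT, modPMap_mk]
  congr 1
  apply Subtype.ext
  rw [coe_intMap, coe_ofAlg, coe_ofAlg, cpMap_coe]

variable (p)

/-- The element `ε = (1, ζ_p, ζ_{p²}, ...)` of the tilt. -/
noncomputable def eps : TT p := mkA (zeta p) (norm_zeta p) (zeta_succ p)

variable {p}

theorem one_add_pow_dvd {A : Type*} [CommRing A] (ξ x : A) (h : ξ ∣ x) (n : ℕ) :
    ∃ c, (1 + x) ^ n = 1 + n * x + ξ ^ 2 * c := by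
  obtain ⟨y, rfl⟩ := h
  induction n with
  | zero => exact ⟨0, by simp⟩
  | succ n ih =>
    obtain ⟨c, hc⟩ := ih
    refine ⟨n * y ^ 2 + c + c * (ξ * y), ?_⟩
    rw [pow_succ, hc]
    push_cast
    ring

theorem xi_dvd_teichmuller_sub_one {x : TT p} (hx : ((x.untilt : 𝓞_ℂ_[p]) : ℂ_[p]) = 1) :
    xi p ∣ teichmuller p x - 1 := by
  rw [← theta_eq_zero_iff, map_sub, fontaineTheta_teichmuller, map_one, sub_eq_zero]
  exact Subtype.ext (by simpa using hx)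

variable (p)

theorem untilt_eps : (((eps p).untilt : 𝓞_ℂ_[p]) : ℂ_[p]) = 1 := by
  rw [eps, untilt_mkA, zeta_zero, coe_one_alg]

theorem exists_nu : ∃ v : AI p, teichmuller p (eps p) - 1 = xi p * v :=
  xi_dvd_teichmuller_sub_one (untilt_eps p)

/-- The quotient of `π = [ε] - 1` by `ξ`. -/
noncomputable def nu : AI p := (exists_nu p).choose

theorem nu_spec : teichmuller p (eps p) - 1 = xi p * nu p := (exists_nu p).choose_spec

/-- `θ(π / ξ)` -/
noncomputable def ww : ℂ_[p] := ((fontaineTheta 𝓞_ℂ_[p] p (nu p) : 𝓞_ℂ_[p]) : ℂ_[p])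

/-- The `p`-adic cyclotomic character of `Gal(Q_p^alg / Q_p)`. -/
noncomputable def chi (g : Gal(PadicAlgCl p/ℚ_[p])) : ℤ_[p]ˣ :=
  cyclotomicCharacter (PadicAlgCl p) p (g : PadicAlgCl p ≃+* PadicAlgCl p)

variable {p}

theorem chi_spec (g : Gal(PadicAlgCl p/ℚ_[p])) (n : ℕ) (t : PadicAlgCl p) (ht : t ^ p ^ n = 1) :
    g t = t ^ (PadicInt.toZModPow n (chi p g : ℤ_[p])).val := by
  have hE : ∀ i, HasEnoughRootsOfUnity (PadicAlgCl p) (p ^ i) := by
    intro i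
    have hne : NeZero ((p ^ i : ℕ) : PadicAlgCl p) :=
      ⟨by exact_mod_cast pow_ne_zero _ hp.out.ne_zero⟩
    infer_instance
  exact cyclotomicCharacter.spec p (g : PadicAlgCl p ≃+* PadicAlgCl p) t ht

/-- The action of the Galois group on `π`. -/
theorem cocycle_approx (g : Gal(PadicAlgCl p/ℚ_[p])) (n : ℕ) :
    ‖thC p (coc p g) * cpMap p g (ww p) -
      ((PadicInt.toZModPow n (chi p g : ℤ_[p])).val : ℂ_[p]) * ww p‖ ≤ ‖(p : ℂ_[p])‖ ^ n := by
  set a := (PadicInt.toZModPow n (chi p g : ℤ_[p])).val with ha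
  have hg1 : ∀ k, ‖g (zeta p k)‖ = 1 := fun k => by rw [norm_gal, norm_zeta]
  have hg2 : ∀ k, g (zeta p (k + 1)) ^ p = g (zeta p k) := fun k => by rw [← map_pow, zeta_succ]
  have hp1 : ∀ k, ‖zeta p k ^ a‖ = 1 := fun k => by rw [norm_pow, norm_zeta, one_pow]
  have hp2 : ∀ k, (zeta p (k + 1) ^ a) ^ p = zeta p k ^ a := fun k => by
    rw [← pow_mul, mul_comm, pow_mul, zeta_succ]
  -- the element `δ`
  let d : ℕ → PadicAlgCl p := fun k => g (zeta p (k + n)) * (zeta p (k + n) ^ a)⁻¹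
  have hd1 : ∀ k, ‖d k‖ = 1 := fun k => by
    simp only [d, norm_mul, norm_inv, hg1, hp1, inv_one, mul_one]
  have hd2 : ∀ k, d (k + 1) ^ p = d k := fun k => by
    simp only [d]
    rw [mul_pow, inv_pow, show k + 1 + n = (k + n) + 1 by ring, hg2, hp2]
  have hd0 : d 0 = 1 := by
    simp only [d, zero_add]
    rw [chi_spec g n (zeta p n) (zeta_prim p n).pow_eq_one]
    exact mul_inv_cancel₀ (pow_ne_zero _ (zeta_ne_zero p n))
  have hdp1 : ∀ k, ‖d k ^ p ^ n‖ = 1 := fun k => by rw [norm_pow, hd1, one_pow]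
  have hdp2 : ∀ k, (d (k + 1) ^ p ^ n) ^ p = d k ^ p ^ n := fun k => by
    rw [← pow_mul, mul_comm, pow_mul, hd2]
  have hprod : (fun k => g (zeta p k)) = fun k => zeta p k ^ a * d k ^ p ^ n := by
    funext k
    simp only [d]
    rw [mul_pow, inv_pow, ← map_pow, zeta_add_pow, ← pow_mul, mul_comm a, pow_mul, zeta_add_pow,
      mul_comm (g _), ← mul_assoc, mul_inv_cancel₀ (pow_ne_zero _ (zeta_ne_zero p k)), one_mul]
  set D : TT p := mkA d hd1 hd2 with hD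
  have hl1 : ∀ k, ‖zeta p k ^ a * d k ^ p ^ n‖ = 1 := fun k => by
    rw [norm_mul, hp1, hdp1, one_mul]
  have hl2 : ∀ k, (zeta p (k + 1) ^ a * d (k + 1) ^ p ^ n) ^ p = zeta p k ^ a * d k ^ p ^ n :=
    fun k => by rw [mul_pow, hp2, hdp2]
  have htilt : tiltMap p (intMap p g) (eps p) = eps p ^ a * D ^ p ^ n := by
    rw [eps, tiltMap_mkA g _ _ _ hg1 hg2]
    have e1 : mkA (fun k => g (zeta p k)) hg1 hg2 =
        mkA (fun k => zeta p k ^ a * d k ^ p ^ n) hl1 hl2 := by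
      congr 1
    rw [e1, mkA_mul (fun k => zeta p k ^ a) (fun k => d k ^ p ^ n) hp1 hp2 hdp1 hdp2,
      mkA_pow (zeta p) (norm_zeta p) (zeta_succ p), mkA_pow d hd1 hd2]
  -- pass to Witt vectors
  obtain ⟨v', hv'⟩ := xi_dvd_teichmuller_sub_one (x := D) (by rw [hD, untilt_mkA, hd0, coe_one_alg])
  have hE : teichmuller p (eps p) = 1 + xi p * nu p := by rw [← nu_spec]; ring
  have hDt : teichmuller p D = 1 + xi p * v' := by rw [← hv']; ring
  obtain ⟨c1, hc1⟩ := one_add_pow_dvd (xi p) (xi p * nu p) (dvd_mul_right _ _) a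
  obtain ⟨c2, hc2⟩ := one_add_pow_dvd (xi p) (xi p * v') (dvd_mul_right _ _) (p ^ n)
  have hmap : WittVector.map (tiltMap p (intMap p g)) (xi p * nu p) =
      xi p * (a * nu p + (p : AI p) ^ n * v' + xi p * (c1 + c2 + (a * nu p + xi p * c1) *
        (p ^ n * v' + xi p * c2))) := by
    rw [← nu_spec, map_sub, map_one, WittVector.map_teichmuller, htilt, map_mul, map_pow, map_pow,
      hE, hDt, hc1, hc2]
    push_cast
    ring
  have hL := congrArg (algebraMap (AI p) (AL p)) hmap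
  rw [← locMap_algebraMap, map_mul, map_mul] at hL
  change locMap p (intMap p g) (xiL p) * _ = _ at hL
  rw [locMap_xiL, map_mul (algebraMap (AI p) (AL p)) (xi p)] at hL
  change coc p g * xiL p * _ = xiL p * _ at hL
  have hL2 : coc p g * locMap p (intMap p g) (algebraMap (AI p) (AL p) (nu p)) =
      algebraMap (AI p) (AL p) (a * nu p + (p : AI p) ^ n * v' + xi p * (c1 + c2 +
        (a * nu p + xi p * c1) * (p ^ n * v' + xi p * c2))) := by
    apply mul_left_cancel₀ (xiL_ne_zero p)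
    rw [← hL]; ring
  have hC := congrArg (thC p) hL2
  rw [map_mul, thC_locMap, thC_algebraMap, thC_algebraMap, map_add, map_add, map_mul, map_mul,
    map_mul, theta_xi, zero_mul, add_zero, map_natCast, map_pow, map_natCast] at hC
  have hC2 : thC p (coc p g) * cpMap p g (ww p) = (a : ℂ_[p]) * ww p + (p : ℂ_[p]) ^ n *
      ((fontaineTheta 𝓞_ℂ_[p] p v' : 𝓞_ℂ_[p]) : ℂ_[p]) := by
    refine hC.trans ?_
    simp [ww]
  rw [hC2, add_sub_cancel_left, norm_mul, norm_pow]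
  exact mul_le_of_le_one_right (pow_nonneg (norm_nonneg _) _) (norm_int_le p _)

theorem norm_algebraMap_C (x : ℚ_[p]) : ‖algebraMap ℚ_[p] ℂ_[p] x‖ = ‖x‖ :=
  PadicComplex.norm_extends' p x

theorem ww_norm_le : ‖ww p‖ ≤ 1 := norm_int_le p _

/-- The cocycle identity. -/
theorem cocycle_eq (g : Gal(PadicAlgCl p/ℚ_[p])) :
    thC p (coc p g) * cpMap p g (ww p) =
      algebraMap ℚ_[p] ℂ_[p] ((chi p g : ℤ_[p]) : ℚ_[p]) * ww p := by
  rw [← sub_eq_zero, ← norm_le_zero_iff]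
  refine ge_of_tendsto' (tendsto_norm_p_pow p) fun n => ?_
  set a := (PadicInt.toZModPow n (chi p g : ℤ_[p])).val with ha
  have h1 := cocycle_approx g n
  have h2 : ‖((a : ℂ_[p]) - algebraMap ℚ_[p] ℂ_[p] ((chi p g : ℤ_[p]) : ℚ_[p])) * ww p‖ ≤
      ‖(p : ℂ_[p])‖ ^ n := by
    rw [norm_mul]
    refine (mul_le_of_le_one_right (norm_nonneg _) ww_norm_le).trans ?_
    have e : (a : ℂ_[p]) - algebraMap ℚ_[p] ℂ_[p] ((chi p g : ℤ_[p]) : ℚ_[p]) =
        algebraMap ℚ_[p] ℂ_[p] (((a : ℤ_[p]) - (chi p g : ℤ_[p]) : ℤ_[p]) : ℚ_[p]) := by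
      push_cast
      simp
    rw [e, norm_algebraMap_C]
    have h3 : ((a : ℤ_[p]) - (chi p g : ℤ_[p])) ∈ RingHom.ker (PadicInt.toZModPow (p := p) n) := by
      rw [RingHom.mem_ker, map_sub, map_natCast, ha, ZMod.natCast_zmod_val, sub_self]
    rw [PadicInt.ker_toZModPow] at h3
    have h4 := (PadicInt.norm_le_pow_iff_mem_span_pow _ n).2 h3
    rw [norm_p, inv_pow]
    refine le_trans (le_of_eq ?_) (h4.trans (le_of_eq ?_))
    · rfl
    · rw [zpow_neg, zpow_natCast]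
  have e : thC p (coc p g) * cpMap p g (ww p) -
      algebraMap ℚ_[p] ℂ_[p] ((chi p g : ℤ_[p]) : ℚ_[p]) * ww p =
      (thC p (coc p g) * cpMap p g (ww p) - (a : ℂ_[p]) * ww p) +
      ((a : ℂ_[p]) - algebraMap ℚ_[p] ℂ_[p] ((chi p g : ℤ_[p]) : ℚ_[p])) * ww p := by ring
  rw [e]
  exact (IsUltrametricDist.norm_add_le_max _ _).trans (max_le h1 h2)

end Pool.Agent.Y804.FM
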