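import Pool.Agent.Y804.FM.Eigen

/-!
Eigenvectors of subgroups of finite index.
-/

set_option autoImplicit false
set_option linter.unusedSectionVars false

namespace Pool.Agent.Y804.FM

open Pool.Agent.W292.FM

variable (p : ℕ) [hp : Fact p.Prime]

/-- The subgroup fixing the `p ^ N`-th roots of unity. -/
def HN (N : ℕ) : Subgroup Gal(PadicAlgCl p/ℚ_[p]) where
  carrier := {g | g (zeta p N) = zeta p N}
  mul_mem' := by
    intro a b ha hb
    change (a * b) (zeta p N) = zeta p N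
    rw [AlgEquiv.mul_apply, hb, ha]
  one_mem' := rfl
  inv_mem' := by
    intro a ha
    change a⁻¹ (zeta p N) = zeta p N
    have h : a (zeta p N) = zeta p N := ha
    nth_rw 1 [← h]
    rw [← AlgEquiv.mul_apply, inv_mul_cancel]
    rfl

theorem mem_HN {N : ℕ} {g : Gal(PadicAlgCl p/ℚ_[p])} : g ∈ HN p N ↔ g (zeta p N) = zeta p N :=
  Iff.rfl

/-- Passing from a subgroup of finite index to the whole group. -/
theorem exists_full_eigen (H0 H1 : Subgroup Gal(PadicAlgCl p/ℚ_[p])) [hf : H1.FiniteIndex]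
    (η : Gal(PadicAlgCl p/ℚ_[p]) → ℚ_[p]) (hmul : ∀ g ∈ H0, ∀ h ∈ H0, η (g * h) = η g * η h)
    (hne : ∀ g ∈ H0, η g ≠ 0) {x : ℂ_[p]} (hx : x ≠ 0)
    (h : ∀ g ∈ H0, g ∈ H1 → cpMap p g x = algebraMap ℚ_[p] ℂ_[p] (η g) * x) :
    ∃ m : ℕ, m ≠ 0 ∧ ∃ y : ℂ_[p], y ≠ 0 ∧ ∀ g ∈ H0,
      cpMap p g y = algebraMap ℚ_[p] ℂ_[p] (η g) ^ m * y := by
  classical
  set K : Subgroup H0 := H1.subgroupOf H0 with hK
  have : K.FiniteIndex := inferInstance
  have : Fintype (H0 ⧸ K) := Subgroup.fintypeQuotientOfFiniteIndex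
  have hinj : ∀ c : ℚ_[p], c ≠ 0 → algebraMap ℚ_[p] ℂ_[p] c ≠ 0 := fun c hc => by
    rwa [Ne, map_eq_zero_iff _ (algebraMap ℚ_[p] ℂ_[p]).injective]
  let f : H0 → ℂ_[p] := fun g => (algebraMap ℚ_[p] ℂ_[p] (η g))⁻¹ * cpMap p g x
  have hfK : ∀ (g : H0) (k : H0), k ∈ K → f (g * k) = f g := by
    intro g k hk
    have hk1 : (k : Gal(PadicAlgCl p/ℚ_[p])) ∈ H1 := Subgroup.mem_subgroupOf.1 hk
    simp only [f]
    rw [Subgroup.coe_mul, hmul _ g.2 _ k.2, cpMap_mul, h _ k.2 hk1, map_mul (cpMap p g),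
      cpMap_algebraMap, map_mul, mul_inv]
    have := hinj _ (hne _ k.2)
    field_simp
  let F : H0 ⧸ K → ℂ_[p] := Quotient.lift f (by
    intro a b hab
    have h1 : a⁻¹ * b ∈ K := QuotientGroup.leftRel_apply.1 hab
    have h2 := hfK a (a⁻¹ * b) h1
    rw [mul_inv_cancel_left] at h2
    exact h2.symm)
  have hF : ∀ g : H0, F (g : H0 ⧸ K) = f g := fun g => rfl
  have hgF : ∀ (g : H0) (q : H0 ⧸ K), cpMap p g (F q) =
      algebraMap ℚ_[p] ℂ_[p] (η g) * F (g • q) := by
    intro g q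
    induction q using QuotientGroup.induction_on with
    | H a =>
      have e : g • ((a : H0) : H0 ⧸ K) = ((g * a : H0) : H0 ⧸ K) := rfl
      rw [e, hF, hF]
      simp only [f]
      rw [map_mul, map_inv₀, cpMap_algebraMap, Subgroup.coe_mul, hmul _ g.2 _ a.2, cpMap_mul,
        map_mul, mul_inv]
      have := hinj _ (hne _ g.2)
      field_simp
  refine ⟨Fintype.card (H0 ⧸ K), Fintype.card_ne_zero, ∏ q : H0 ⧸ K, F q, ?_, fun g hg => ?_⟩
  · rw [Finset.prod_ne_zero_iff]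
    intro q _
    induction q using QuotientGroup.induction_on with
    | H a =>
      rw [hF]
      simp only [f]
      refine mul_ne_zero (inv_ne_zero (hinj _ (hne _ a.2))) ?_
      intro h0
      exact hx ((map_eq_zero_iff (cpMap p a) (cpMap p a).injective).1 h0)
  · rw [map_prod]
    have h1 : ∀ q : H0 ⧸ K, cpMap p g (F q) =
        algebraMap ℚ_[p] ℂ_[p] (η g) * F ((⟨g, hg⟩ : H0) • q) := fun q => hgF ⟨g, hg⟩ q
    rw [Finset.prod_congr rfl (fun q _ => h1 q), Finset.prod_mul_distrib, Finset.prod_const,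
      Finset.card_univ]
    congr 1
    exact Fintype.prod_equiv (MulAction.toPerm (⟨g, hg⟩ : H0)) _ _ (fun q => rfl)

/-- If `c` is multiplicative with `c ^ (2 M)` the `M`-th power of the cyclotomic character on an
open subgroup, then `c` has no eigenvector in `BDeRham` for a subgroup of finite index. -/
theorem no_eigen_fin {N M : ℕ} (hM : M ≠ 0) (c : Gal(PadicAlgCl p/ℚ_[p]) → ℚ_[p])
    (hcm : ∀ g ∈ HN p N, ∀ h ∈ HN p N, c (g * h) = c g * c h)
    (hc1 : ∀ g ∈ HN p N, c g ^ (2 * M) = ((chi p g : ℤ_[p]) : ℚ_[p]) ^ M)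
    (hc0 : ∀ g, (∀ n, g (zeta p n) = zeta p n) → c g = 1)
    (H1 : Subgroup Gal(PadicAlgCl p/ℚ_[p])) [hf : H1.FiniteIndex] {b : BD p}
    (hb : ∀ g ∈ HN p N, g ∈ H1 →
      bdrMap p (intMap p g) b = algebraMap ℚ_[p] (BD p) (c g) * b) : b = 0 := by
  by_contra hne
  obtain ⟨k, x, hx, hx2⟩ := exists_eigen_C p hne {g | g ∈ HN p N ∧ g ∈ H1} c
    (fun g hg => hb g hg.1 hg.2)
  have hchim : ∀ g h : Gal(PadicAlgCl p/ℚ_[p]), chi p (g * h) = chi p g * chi p h := by
    intro g h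
    unfold chi
    rw [← map_mul]
    rfl
  have hcne : ∀ g ∈ HN p N, c g ≠ 0 := by
    intro g hg h0
    have h1 := hc1 g hg
    rw [h0, zero_pow (by omega)] at h1
    exact pow_ne_zero M (coe_chi_ne_zero p g) h1.symm
  obtain ⟨m, hm, y, hy, hy2⟩ := exists_full_eigen p (HN p N) H1
    (fun g => c g * ((chi p g : ℤ_[p]) : ℚ_[p]) ^ k)
    (by
      intro g hg h hh
      rw [hcm g hg h hh, hchim, Units.val_mul, PadicInt.coe_mul, mul_zpow]
      ring)
    (by
      intro g hg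
      exact mul_ne_zero (hcne g hg) (zpow_ne_zero _ (coe_chi_ne_zero p g)))
    hx (fun g hg hg1 => hx2 g ⟨hg, hg1⟩)
  -- extend by `1` outside the open subgroup
  classical
  set η : Gal(PadicAlgCl p/ℚ_[p]) → ℚ_[p] := fun g =>
    if g (zeta p N) = zeta p N then (c g * ((chi p g : ℤ_[p]) : ℚ_[p]) ^ k) ^ m else 1 with hη
  have hchi1 : ∀ g, ‖((chi p g : ℤ_[p]) : ℚ_[p])‖ = 1 := fun g => by
    have := PadicInt.norm_units (chi p g)
    rw [PadicInt.norm_def] at this
    exact this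
  have hcn : ∀ g, g (zeta p N) = zeta p N → ‖c g‖ = 1 := by
    intro g hg
    have h1 := congrArg norm (hc1 g hg)
    rw [norm_pow, norm_pow, hchi1, one_pow] at h1
    exact (pow_eq_one_iff_of_nonneg (norm_nonneg _) (by omega)).1 h1
  apply hy
  refine tate N η ?_ ?_ ?_ ?_
  · intro g
    simp only [hη]
    split_ifs with hg
    · rw [norm_pow, norm_mul, norm_zpow, hchi1, one_zpow, hcn g hg, mul_one, one_pow]
    · rw [norm_one]
  · intro g hg
    simp only [hη]
    rw [if_pos (hg N), hc0 g hg, one_mul]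
    have h1 : (chi p g : ℤ_[p]) = 1 := by
      refine PadicInt.ext_of_toZModPow.1 fun n => ?_
      have : NeZero (p ^ n) := ⟨(pow_pos hp.out.pos n).ne'⟩
      have h2 := chi_spec g n (zeta p n) (zeta_prim p n).pow_eq_one
      rw [hg n] at h2
      rcases Nat.eq_zero_or_pos n with rfl | hn
      · have : Subsingleton (ZMod (p ^ 0)) := by rw [pow_zero]; infer_instance
        exact Subsingleton.elim _ _
      have hlt : 1 < p ^ n := one_lt_pow₀ hp.out.one_lt hn.ne'
      have h3 := (zeta_prim p n).pow_inj (ZMod.val_lt _) hlt (by rw [← h2, pow_one])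
      apply ZMod.val_injective
      rw [h3, map_one, ZMod.val_one'' hlt.ne']
    rw [h1]
    simp
  · intro n
    obtain ⟨g, hg1, hg2, hg3⟩ := exists_chi_close p (max n N)
    refine ⟨g, zeta_fix_of_le (le_max_left _ _) hg1, ?_⟩
    have hgN : g (zeta p N) = zeta p N := zeta_fix_of_le (le_max_right _ _) hg1
    simp only [hη]
    rw [if_pos hgN]
    intro h1
    have hne0 := coe_chi_ne_zero p g
    have h2 : ((chi p g : ℤ_[p]) : ℚ_[p]) ^ (((M : ℤ) + k * ((2 * M : ℕ) : ℤ)) * m) = 1 := by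
      rw [zpow_mul, zpow_natCast, zpow_add₀ hne0, zpow_natCast, zpow_mul, zpow_natCast,
        ← hc1 g hgN, ← mul_pow, ← pow_mul, mul_comm (2 * M), pow_mul, h1, one_pow]
    set e : ℤ := ((M : ℤ) + k * ((2 * M : ℕ) : ℤ)) * m with he
    have he0 : e ≠ 0 := by
      have : e = M * (1 + 2 * k) * m := by rw [he]; push_cast; ring
      rw [this]
      refine mul_ne_zero (mul_ne_zero (by exact_mod_cast hM) ?_) (by exact_mod_cast hm)
      omega
    have h3 : ((chi p g : ℤ_[p]) : ℚ_[p]) ^ e.natAbs = 1 := by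
      rcases Int.natAbs_eq e with h4 | h4
      · rw [← zpow_natCast, ← h4]; exact h2
      · rw [← zpow_natCast]
        have h5 : ((e.natAbs : ℤ)) = -e := by omega
        rw [h5, zpow_neg, h2, inv_one]
    have h4 : (chi p g : ℤ_[p]) ^ e.natAbs = 1 := by
      apply Subtype.ext
      rw [PadicInt.coe_pow, PadicInt.coe_one]
      exact h3
    exact pow_ne_one_of_close p hg2 hg3 (Int.natAbs_ne_zero.2 he0) h4
  · intro g hg
    simp only [hη]
    rw [if_pos hg, map_pow]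
    exact hy2 g hg

end Pool.Agent.Y804.FM
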