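import Mathlib

/-!
The `l`-adic cyclotomic character of a number field: inertia and Frobenius elements outside `l`.
-/

set_option autoImplicit false
set_option linter.unusedSectionVars false

open NumberField

namespace Pool.Agent.Y804.FM

variable {l : ℕ} [hl : Fact l.Prime] {F : Type} [Field F] [NumberField F]

/-- Two roots of unity of order prime to `P` which are congruent modulo `P` are equal. -/
theorem root_eq_of_sub_mem {P : Ideal (𝓞 (AlgebraicClosure F))} (hP : P.IsPrime) {N : ℕ}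
    (hN : (N : 𝓞 (AlgebraicClosure F)) ∉ P) {a b : 𝓞 (AlgebraicClosure F)} (ha : a ^ N = 1)
    (hb : b ^ N = 1) (hab : a - b ∈ P) : a = b := by
  by_contra hne
  have hN0 : N ≠ 0 := by rintro rfl; exact hN (by simp)
  have h1 := geom_sum₂_mul a b N
  rw [ha, hb, sub_self] at h1
  have h2 := (mul_eq_zero.1 h1).resolve_right (sub_ne_zero.2 hne)
  have h3 := congrArg (Ideal.Quotient.mk P) h2
  have hab' : Ideal.Quotient.mk P a = Ideal.Quotient.mk P b := Ideal.Quotient.eq.2 hab
  rw [map_sum, map_zero] at h3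
  have h4 : ∀ i ∈ Finset.range N, Ideal.Quotient.mk P (a ^ i * b ^ (N - 1 - i)) =
      Ideal.Quotient.mk P (b ^ (N - 1)) := by
    intro i hi
    rw [map_mul, map_pow, map_pow, hab', ← pow_add, map_pow]
    congr 1
    have := Finset.mem_range.1 hi
    omega
  rw [Finset.sum_congr rfl h4, Finset.sum_const, Finset.card_range, nsmul_eq_mul,
    ← map_natCast (Ideal.Quotient.mk P), ← map_mul, Ideal.Quotient.eq_zero_iff_mem] at h3
  rcases hP.mem_or_mem h3 with h5 | h5
  · exact hN h5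
  · have h6 : b ∈ P := hP.mem_of_pow_mem _ h5
    have h7 : b ^ N ∈ P := Ideal.pow_mem_of_mem P h6 N (Nat.pos_of_ne_zero hN0)
    rw [hb] at h7
    exact hP.ne_top ((Ideal.eq_top_iff_one P).2 h7)

theorem pow_not_mem {P : Ideal (𝓞 (AlgebraicClosure F))} (hP : P.IsPrime)
    (h : (l : 𝓞 (AlgebraicClosure F)) ∉ P) (n : ℕ) :
    ((l ^ n : ℕ) : 𝓞 (AlgebraicClosure F)) ∉ P := by
  rw [Nat.cast_pow]
  exact fun h1 => h (hP.mem_of_pow_mem _ h1)

/-- a root of unity as an algebraic integer -/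
theorem exists_int {t : AlgebraicClosure F} {N : ℕ} (hN : N ≠ 0) (ht : t ^ N = 1) :
    ∃ x : 𝓞 (AlgebraicClosure F), (x : AlgebraicClosure F) = t ∧ x ^ N = 1 := by
  have h1 : IsIntegral ℤ t := by
    refine ⟨Polynomial.X ^ N - 1, Polynomial.monic_X_pow_sub_C 1 hN, ?_⟩
    simp [ht]
  refine ⟨⟨t, h1⟩, rfl, ?_⟩
  apply RingOfIntegers.ext
  simpa using ht

instance hasRoots (i : ℕ) : HasEnoughRootsOfUnity (AlgebraicClosure F) (l ^ i) := by
  have hne : NeZero ((l ^ i : ℕ) : AlgebraicClosure F) :=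
    ⟨by exact_mod_cast pow_ne_zero _ hl.out.ne_zero⟩
  infer_instance

variable (l) in
/-- The `l`-adic cyclotomic character of `F`. -/
noncomputable def chiF : Gal(AlgebraicClosure F/F) →* ℤ_[l]ˣ :=
  (cyclotomicCharacter (AlgebraicClosure F) l).comp
    (MulSemiringAction.toRingAut Gal(AlgebraicClosure F/F) (AlgebraicClosure F))

theorem chiF_continuous : Continuous (chiF l (F := F)) :=
  cyclotomicCharacter.continuous l F (AlgebraicClosure F)

theorem chiF_spec (τ : Gal(AlgebraicClosure F/F)) (n : ℕ) {t : AlgebraicClosure F}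
    (ht : t ^ l ^ n = 1) : τ t = t ^ (PadicInt.toZModPow n (chiF l τ : ℤ_[l])).val :=
  cyclotomicCharacter.spec l
    (MulSemiringAction.toRingAut Gal(AlgebraicClosure F/F) (AlgebraicClosure F) τ) t ht

theorem exists_prim (n : ℕ) : ∃ t : AlgebraicClosure F, IsPrimitiveRoot t (l ^ n) :=
  HasEnoughRootsOfUnity.exists_primitiveRoot (AlgebraicClosure F) (l ^ n)

theorem val_one_pow {n : ℕ} (hn : n ≠ 0) : (1 : ZMod (l ^ n)).val = 1 :=
  ZMod.val_one'' (one_lt_pow₀ hl.out.one_lt hn).ne'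

theorem padic_eq_of_val {x y : ℤ_[l]}
    (h : ∀ n : ℕ, n ≠ 0 → PadicInt.toZModPow n x = PadicInt.toZModPow n y) : x = y := by
  refine PadicInt.ext_of_toZModPow.1 fun n => ?_
  rcases Nat.eq_zero_or_pos n with rfl | hn
  · have : Subsingleton (ZMod (l ^ 0)) := by rw [pow_zero]; infer_instance
    exact Subsingleton.elim _ _
  · exact h n hn.ne'

/-- Inertia elements outside `l` act trivially on `l`-power roots of unity. -/
theorem chiF_inertia {P : Ideal (𝓞 (AlgebraicClosure F))} (hP : P.IsMaximal)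
    (hlP : (l : 𝓞 (AlgebraicClosure F)) ∉ P) {τ : Gal(AlgebraicClosure F/F)}
    (hτ : ∀ x : 𝓞 (AlgebraicClosure F), τ • x - x ∈ P) : chiF l τ = 1 := by
  apply Units.ext
  rw [Units.val_one]
  refine padic_eq_of_val fun n hn => ?_
  obtain ⟨t, ht⟩ := exists_prim (F := F) (l := l) n
  have hNZ : NeZero (l ^ n) := ⟨pow_ne_zero _ hl.out.ne_zero⟩
  obtain ⟨x, hx, hxN⟩ := exists_int (pow_ne_zero n hl.out.ne_zero) ht.pow_eq_one
  have h1 : τ • x = x := root_eq_of_sub_mem hP.isPrime (pow_not_mem hP.isPrime hlP n)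
    (by rw [← smul_pow', hxN, smul_one]) hxN (hτ x)
  have h2 : τ t = t := by
    have := congrArg (fun y : 𝓞 (AlgebraicClosure F) => (y : AlgebraicClosure F)) h1
    rw [← hx]
    exact this
  have h3 := chiF_spec (l := l) τ n ht.pow_eq_one
  rw [h2] at h3
  have h4 := ht.pow_inj (ZMod.val_lt _) (one_lt_pow₀ hl.out.one_lt hn) (by rw [← h3, pow_one])
  apply ZMod.val_injective
  rw [h4, map_one, val_one_pow hn]

/-- A geometric Frobenius element outside `l`, for a residue field of order `q`, acts on `l`-power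
roots of unity by the inverse of `q`. -/
theorem chiF_frob {P : Ideal (𝓞 (AlgebraicClosure F))} (hP : P.IsMaximal)
    (hlP : (l : 𝓞 (AlgebraicClosure F)) ∉ P) {τ : Gal(AlgebraicClosure F/F)} {q : ℕ}
    (hτ : ∀ x : 𝓞 (AlgebraicClosure F), τ • x ^ q - x ∈ P) : (chiF l τ : ℤ_[l]) * q = 1 := by
  refine padic_eq_of_val fun n hn => ?_
  obtain ⟨t, ht⟩ := exists_prim (F := F) (l := l) n
  have hNZ : NeZero (l ^ n) := ⟨pow_ne_zero _ hl.out.ne_zero⟩
  obtain ⟨x, hx, hxN⟩ := exists_int (pow_ne_zero n hl.out.ne_zero) ht.pow_eq_one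
  have h1 : τ • x ^ q = x := root_eq_of_sub_mem hP.isPrime (pow_not_mem hP.isPrime hlP n)
    (by rw [← smul_pow', ← pow_mul, mul_comm, pow_mul, hxN, one_pow, smul_one]) hxN (hτ x)
  have h2 : τ t ^ q = t := by
    have h5 := congrArg (fun y : 𝓞 (AlgebraicClosure F) => (y : AlgebraicClosure F)) h1
    rw [← map_pow, ← hx]
    refine Eq.trans ?_ h5
    change τ ((x : AlgebraicClosure F) ^ q) = τ ((x ^ q : 𝓞 (AlgebraicClosure F)) :
      AlgebraicClosure F)
    rw [RingOfIntegers.coe_eq_algebraMap, RingOfIntegers.coe_eq_algebraMap, map_pow, map_pow,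
      map_pow]
  rw [chiF_spec (l := l) τ n ht.pow_eq_one, ← pow_mul] at h2
  set a := (PadicInt.toZModPow n (chiF l τ : ℤ_[l])) with ha
  have hlt : 1 < l ^ n := one_lt_pow₀ hl.out.one_lt hn
  have h3 : t ^ (a.val * q % l ^ n) = t ^ 1 := by
    have h6 : t ^ (a.val * q) = t ^ (a.val * q % l ^ n) := by
      conv_lhs => rw [← Nat.div_add_mod (a.val * q) (l ^ n)]
      rw [pow_add, pow_mul, ht.pow_eq_one, one_pow, one_mul]
    rw [← h6, h2, pow_one]
  have h4 : a.val * q ≡ 1 [MOD l ^ n] := by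
    have := ht.pow_inj (Nat.mod_lt _ (by omega)) hlt h3
    rw [Nat.ModEq, this, Nat.mod_eq_of_lt hlt]
  have h5 := (ZMod.natCast_eq_natCast_iff _ _ _).2 h4
  rw [map_mul, map_natCast, map_one, ← ha]
  rw [Nat.cast_mul, ZMod.natCast_zmod_val, Nat.cast_one] at h5
  exact h5

end Pool.Agent.Y804.FM
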