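import Pool.Agent.W292.FM.Tilt

/-!
The kernel of Fontaine's map `θ : W(O♭) → O`, `O` the ring of integers of `ℂ_[p]`, is generated by
`ξ = [p♭] - p`.
-/

set_option autoImplicit false
set_option linter.unusedSectionVars false

namespace Pool.Agent.Y804.FM

open Ideal WittVector Pool.Agent.W292.FM

/-- Successive approximation in a `p`-adically complete ring. -/
theorem mem_span_of_approx {A : Type*} [CommRing A] (p : A) [IsAdicComplete (span {p}) A]
    (ξ : A) (M : Set A) (h : ∀ x ∈ M, ∃ a, ∃ y ∈ M, x = ξ * a + p * y) {x : A} (hx : x ∈ M) :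
    ξ ∣ x := by
  classical
  choose! a y hy hxy using h
  let X : ℕ → A := fun n => Nat.rec x (fun _ z => y z) n
  have hX0 : X 0 = x := rfl
  have hXs : ∀ n, X (n + 1) = y (X n) := fun n => rfl
  have hXM : ∀ n, X n ∈ M := by
    intro n
    induction n with
    | zero => exact hx
    | succ n ih => rw [hXs]; exact hy _ ih
  let s : ℕ → A := fun n => ∑ k ∈ Finset.range n, p ^ k * a (X k)
  have hs : ∀ n, x = ξ * s n + p ^ n * X n := by
    intro n
    induction n with
    | zero => simp [s, hX0]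
    | succ n ih =>
      have h1 := hxy _ (hXM n)
      have h2 : s (n + 1) = s n + p ^ n * a (X n) := by
        simp only [s, Finset.sum_range_succ]
      rw [h2, hXs]
      calc x = ξ * s n + p ^ n * X n := ih
        _ = ξ * s n + p ^ n * (ξ * a (X n) + p * y (X n)) := by rw [← h1]
        _ = _ := by ring
  have hcau : ∀ {m n : ℕ}, m ≤ n → s m ≡ s n [SMOD (span {p} ^ m • ⊤ : Submodule A A)] := by
    intro m n hmn
    rw [SModEq.sub_mem, smul_eq_mul, Ideal.mul_top, Ideal.span_singleton_pow,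
      Ideal.mem_span_singleton]
    induction n, hmn using Nat.le_induction with
    | base => rw [sub_self]; exact dvd_zero _
    | succ n hmn ih =>
      have h2 : s m - s (n + 1) = (s m - s n) - p ^ n * a (X n) := by
        simp only [s, Finset.sum_range_succ]; ring
      rw [h2]
      exact dvd_sub ih (Dvd.dvd.mul_right (pow_dvd_pow p hmn) _)
  obtain ⟨L, hL⟩ := (inferInstance : IsPrecomplete (span {p}) A).prec' s hcau
  refine ⟨L, ?_⟩
  have hH : IsHausdorff (span {p}) A := inferInstance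
  rw [← sub_eq_zero]
  refine hH.haus' _ fun n => ?_
  have h1 := hL n
  rw [SModEq.sub_mem, smul_eq_mul, Ideal.mul_top, Ideal.span_singleton_pow,
    Ideal.mem_span_singleton] at h1 ⊢
  rw [sub_zero]
  have h2 : x - ξ * L = ξ * (s n - L) + p ^ n * X n := by
    rw [mul_sub]
    nth_rw 1 [hs n]
    ring
  rw [h2]
  exact dvd_add (Dvd.dvd.mul_left h1 _) (dvd_mul_right _ _)

variable (p : ℕ) [hp : Fact p.Prime]

/-- The element `ξ = [p♭] - p` of `A_inf`. -/
noncomputable def xi : AI p := teichmuller p (pflat p) - (p : AI p)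

theorem theta_xi : fontaineTheta 𝓞_ℂ_[p] p (xi p) = 0 := by
  rw [xi, map_sub, fontaineTheta_teichmuller, untilt_pflat, map_natCast, sub_self]

variable {p}

theorem p_ne_zero_int : (p : 𝓞_ℂ_[p]) ≠ 0 := by
  intro h
  exact p_ne_zero p (by simpa using congrArg (fun x : 𝓞_ℂ_[p] => (x : ℂ_[p])) h)

/-- Every Witt vector is the Teichmüller representative of its first coefficient up to `p`. -/
theorem exists_eq_teichmuller_add (x : AI p) :
    ∃ z : AI p, x = teichmuller p (x.coeff 0) + (p : AI p) * z := by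
  obtain ⟨z, hz⟩ := dvd_sub_sum_teichmuller_iterateFrobeniusEquiv_coeff x 0
  refine ⟨z, ?_⟩
  rw [zero_add, pow_one] at hz
  rw [← hz]
  have : Finset.Iic 0 = ({0} : Finset ℕ) := rfl
  rw [this, Finset.sum_singleton]
  simp

theorem xi_dvd_of_theta_eq_zero {x : AI p} (hx : fontaineTheta 𝓞_ℂ_[p] p x = 0) : xi p ∣ x := by
  refine mem_span_of_approx (p : AI p) (xi p) {x | fontaineTheta 𝓞_ℂ_[p] p x = 0} ?_ hx
  intro x hx
  obtain ⟨z, hz⟩ := exists_eq_teichmuller_add x
  have h0 : PreTilt.coeff 0 (x.coeff 0) = 0 := by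
    rw [← mk_fontaineTheta]
    change Ideal.Quotient.mk _ (fontaineTheta 𝓞_ℂ_[p] p x) = 0
    rw [show fontaineTheta 𝓞_ℂ_[p] p x = 0 from hx, map_zero]
  obtain ⟨y, hy⟩ := pflat_dvd h0
  refine ⟨teichmuller p y, z + teichmuller p y, ?_, ?_⟩
  · have h1 : x = xi p * teichmuller p y + (p : AI p) * (z + teichmuller p y) := by
      rw [hz, hy, map_mul, xi]
      ring
    have h2 : fontaineTheta 𝓞_ℂ_[p] p x = 0 := hx
    rw [h1, map_add, map_mul, theta_xi, zero_mul, zero_add, map_mul, map_natCast] at h2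
    exact (mul_eq_zero.1 h2).resolve_left p_ne_zero_int
  · nth_rw 1 [hz]
    rw [hy, map_mul, xi]
    ring

theorem theta_eq_zero_iff (x : AI p) : fontaineTheta 𝓞_ℂ_[p] p x = 0 ↔ xi p ∣ x := by
  constructor
  · exact xi_dvd_of_theta_eq_zero
  · rintro ⟨y, rfl⟩
    rw [map_mul, theta_xi, zero_mul]

end Pool.Agent.Y804.FM
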