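import Pool.Agent.W292.FM.Ax

/-!
A continuous character of `ℤ_p^×` with values in the algebraic closure of `ℚ_p`, whose square is the
identity character up to a character of finite order.
-/

set_option autoImplicit false
set_option linter.unusedSectionVars false

namespace Pool.Agent.Y804.FM

open Polynomial Pool.Agent.W292.FM

variable (p : ℕ) [hp : Fact p.Prime]

/-- the norm of `2` -/
noncomputable def nt : ℝ := ‖(2 : ℤ_[p])‖

theorem nt_pos : 0 < nt p := by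
  rw [nt, norm_pos_iff]
  exact two_ne_zero

theorem nt_le_one : nt p ≤ 1 := PadicInt.norm_le_one _

theorem inv_le_nt : (p : ℝ)⁻¹ ≤ nt p := by
  rcases hp.out.eq_two_or_odd with h | h
  · have e : (2 : ℤ_[p]) = (p : ℤ_[p]) := by
      have e' : ((p : ℕ) : ℤ_[p]) = ((2 : ℕ) : ℤ_[p]) := congrArg _ h
      rw [e']; norm_num
    rw [nt, e, PadicInt.norm_p]
  · have h2 : ‖(2 : ℤ_[p])‖ = 1 := by
      have h8 : ‖(((2 : ℕ) : ℚ_[p]))‖ = 1 := by
        rw [Padic.norm_natCast_eq_one_iff]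
        rw [Nat.coprime_comm, Nat.coprime_two_left, Nat.odd_iff]
        exact h
      rw [PadicInt.norm_def]
      exact_mod_cast h8
    rw [nt, h2]
    exact inv_le_one_of_one_le₀ (one_lt_p p).le

variable {p}

theorem sq_unique {z w : ℤ_[p]} (h : z ^ 2 = w ^ 2) (hz : ‖z - 1‖ < nt p) (hw : ‖w - 1‖ < nt p) :
    z = w := by
  have h1 : (z - w) * (z + w) = 0 := by linear_combination h
  rcases mul_eq_zero.1 h1 with h2 | h2
  · exact sub_eq_zero.1 h2
  · exfalso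
    have h3 : (2 : ℤ_[p]) = -((z - 1) + (w - 1)) := by linear_combination h2
    have h4 : nt p ≤ max ‖z - 1‖ ‖w - 1‖ := by
      rw [nt]
      nth_rw 1 [h3]
      rw [norm_neg]
      exact IsUltrametricDist.norm_add_le_max _ _
    exact absurd (max_lt hz hw) (not_lt.2 h4)

theorem exists_sqrt {u : ℤ_[p]} (hu : ‖u - 1‖ < nt p ^ 2) :
    ∃ z : ℤ_[p], z ^ 2 = u ∧ ‖z - 1‖ < nt p := by
  have h1 : aeval (1 : ℤ_[p]) (X ^ 2 - C u : ℤ_[p][X]) = 1 - u := by simp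
  have h2 : aeval (1 : ℤ_[p]) (derivative (X ^ 2 - C u : ℤ_[p][X])) = 2 := by
    simp
    norm_num
  obtain ⟨z, hz1, hz2, _, _⟩ := hensels_lemma (p := p) (F := (X ^ 2 - C u : ℤ_[p][X]))
    (a := (1 : ℤ_[p])) (by rw [h1, h2, norm_sub_rev]; exact hu)
  rw [h2] at hz2
  refine ⟨z, ?_, hz2⟩
  have : z ^ 2 - u = 0 := by simpa using hz1
  exact sub_eq_zero.1 this

variable (p) in
/-- The units close to `1`. -/
def UU : Subgroup ℤ_[p]ˣ where
  carrier := {u | ‖(u : ℤ_[p]) - 1‖ < nt p ^ 2}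
  mul_mem' := by
    intro u v hu hv
    change ‖((u * v : ℤ_[p]ˣ) : ℤ_[p]) - 1‖ < nt p ^ 2
    have e : ((u * v : ℤ_[p]ˣ) : ℤ_[p]) - 1 = (u : ℤ_[p]) * ((v : ℤ_[p]) - 1) + ((u : ℤ_[p]) - 1) := by
      rw [Units.val_mul]; ring
    rw [e]
    refine lt_of_le_of_lt (IsUltrametricDist.norm_add_le_max _ _) (max_lt ?_ hu)
    rw [norm_mul, PadicInt.norm_units, one_mul]
    exact hv
  one_mem' := by
    change ‖((1 : ℤ_[p]ˣ) : ℤ_[p]) - 1‖ < nt p ^ 2
    rw [Units.val_one, sub_self, norm_zero]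
    exact pow_pos (nt_pos p) 2
  inv_mem' := by
    intro u hu
    change ‖((u⁻¹ : ℤ_[p]ˣ) : ℤ_[p]) - 1‖ < nt p ^ 2
    have e : ((u⁻¹ : ℤ_[p]ˣ) : ℤ_[p]) - 1 = -(((u⁻¹ : ℤ_[p]ˣ) : ℤ_[p]) * ((u : ℤ_[p]) - 1)) := by
      rw [mul_sub, Units.inv_mul]; ring
    rw [e, norm_neg, norm_mul, PadicInt.norm_units, one_mul]
    exact hu

theorem mem_UU {u : ℤ_[p]ˣ} : u ∈ UU p ↔ ‖(u : ℤ_[p]) - 1‖ < nt p ^ 2 := Iff.rfl

/-- The square root of a unit close to `1`. -/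
noncomputable def sq (u : UU p) : ℤ_[p] := (exists_sqrt (mem_UU.1 u.2)).choose

theorem sq_sq (u : UU p) : sq u ^ 2 = ((u : ℤ_[p]ˣ) : ℤ_[p]) :=
  (exists_sqrt (mem_UU.1 u.2)).choose_spec.1

theorem sq_close (u : UU p) : ‖sq u - 1‖ < nt p := (exists_sqrt (mem_UU.1 u.2)).choose_spec.2

theorem sq_mul (u v : UU p) : sq (u * v) = sq u * sq v := by
  apply sq_unique
  · rw [sq_sq, mul_pow, sq_sq, sq_sq]
    rfl
  · exact sq_close _
  · have e : sq u * sq v - 1 = sq u * (sq v - 1) + (sq u - 1) := by ring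
    rw [e]
    refine lt_of_le_of_lt (IsUltrametricDist.norm_add_le_max _ _) (max_lt ?_ (sq_close u))
    rw [norm_mul]
    exact lt_of_le_of_lt (mul_le_of_le_one_left (norm_nonneg _) (PadicInt.norm_le_one _))
      (sq_close v)

theorem sq_one : sq (1 : UU p) = 1 := by
  apply sq_unique
  · rw [sq_sq, one_pow]; rfl
  · exact sq_close _
  · rw [sub_self, norm_zero]; exact nt_pos p

theorem norm_sq_sub (u : UU p) : ‖sq u - 1‖ * nt p = ‖((u : ℤ_[p]ˣ) : ℤ_[p]) - 1‖ := by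
  have h1 : ((u : ℤ_[p]ˣ) : ℤ_[p]) - 1 = (sq u - 1) * (2 + (sq u - 1)) := by
    rw [← sq_sq]; ring
  have h2 : ‖(2 : ℤ_[p]) + (sq u - 1)‖ = nt p := by
    rw [IsUltrametricDist.norm_add_eq_max_of_norm_ne_norm (sq_close u).ne']
    exact max_eq_left (sq_close u).le
  rw [h1, norm_mul, h2]

theorem sq_ne_zero (u : UU p) : sq u ≠ 0 := by
  intro h
  have := sq_sq u
  rw [h, zero_pow two_ne_zero] at this
  exact (u : ℤ_[p]ˣ).ne_zero this.symm

/-- the embedding of `ℤ_p` in the algebraic closure -/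
noncomputable def emb (x : ℤ_[p]) : PadicAlgCl p := algebraMap ℚ_[p] (PadicAlgCl p) (x : ℚ_[p])

theorem emb_mul (x y : ℤ_[p]) : emb (x * y) = emb x * emb y := by
  rw [emb, PadicInt.coe_mul, map_mul]; rfl

theorem emb_pow (x : ℤ_[p]) (n : ℕ) : emb (x ^ n) = emb x ^ n := by
  rw [emb, PadicInt.coe_pow, map_pow]; rfl

theorem emb_one : emb (1 : ℤ_[p]) = 1 := by
  rw [emb, PadicInt.coe_one, map_one]

theorem emb_sub (x y : ℤ_[p]) : emb (x - y) = emb x - emb y := by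
  rw [emb, PadicInt.coe_sub, map_sub]; rfl

theorem emb_ne_zero {x : ℤ_[p]} (hx : x ≠ 0) : emb x ≠ 0 := by
  rw [emb, Ne, map_eq_zero_iff _ (algebraMap ℚ_[p] (PadicAlgCl p)).injective]
  intro h
  exact hx (Subtype.ext (by rw [h]; rfl))

theorem norm_emb (x : ℤ_[p]) : ‖emb x‖ = ‖x‖ := by
  have h : ‖algebraMap ℚ_[p] (PadicAlgCl p) (x : ℚ_[p])‖ = ‖(x : ℚ_[p])‖ :=
    PadicAlgCl.norm_extends p _
  rw [emb, h, PadicInt.norm_def]

/-- The square root as a homomorphism to the units of the algebraic closure. -/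
noncomputable def sqHom : UU p →* (PadicAlgCl p)ˣ where
  toFun u := Units.mk0 (emb (sq u)) (emb_ne_zero (sq_ne_zero u))
  map_one' := by
    apply Units.ext
    rw [Units.val_mk0, sq_one, emb_one, Units.val_one]
  map_mul' u v := by
    apply Units.ext
    rw [Units.val_mk0, sq_mul, emb_mul, Units.val_mul, Units.val_mk0, Units.val_mk0]

theorem units_divisible : Nonempty (DivisibleBy (Additive (PadicAlgCl p)ˣ) ℤ) := by
  refine ⟨@AddGroup.divisibleByIntOfDivisibleByNat _ _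
    (divisibleByOfSMulRightSurj _ _ fun {n} hn x => ?_)⟩
  obtain ⟨y, hy⟩ := IsAlgClosed.exists_pow_nat_eq ((Additive.toMul x : (PadicAlgCl p)ˣ) :
    PadicAlgCl p) (Nat.pos_of_ne_zero hn)
  have hy0 : y ≠ 0 := by
    rintro rfl
    rw [zero_pow hn] at hy
    exact (Additive.toMul x : (PadicAlgCl p)ˣ).ne_zero hy.symm
  refine ⟨Additive.ofMul (Units.mk0 y hy0), ?_⟩
  apply Additive.toMul.injective
  apply Units.ext
  exact hy

theorem exists_extension : ∃ ψ : ℤ_[p]ˣ →* (PadicAlgCl p)ˣ, ∀ u : UU p, ψ (u : ℤ_[p]ˣ) = sqHom u := by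
  obtain ⟨hdiv⟩ := units_divisible (p := p)
  have hB : Module.Baer ℤ (Additive (PadicAlgCl p)ˣ) := Module.Baer.of_divisible _
  obtain ⟨h, hh⟩ := hB.extension_property_addMonoidHom
    (f := MonoidHom.toAdditive (UU p).subtype) (by
      intro x y hxy
      exact Additive.toMul.injective (Subtype.ext (Additive.ofMul.injective hxy)))
    (g := MonoidHom.toAdditive (sqHom (p := p)))
  refine ⟨MonoidHom.toAdditive.symm h, fun u => ?_⟩
  have := DFunLike.congr_fun hh (Additive.ofMul u)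
  exact this

variable (p) in
/-- A character of `ℤ_p^×` extending the square root. -/
noncomputable def psi : ℤ_[p]ˣ →* (PadicAlgCl p)ˣ := (exists_extension (p := p)).choose

theorem psi_of_mem (u : UU p) : psi p (u : ℤ_[p]ˣ) = sqHom u :=
  (exists_extension (p := p)).choose_spec u

theorem psi_val_of_mem {u : ℤ_[p]ˣ} (hu : u ∈ UU p) :
    ((psi p u : (PadicAlgCl p)ˣ) : PadicAlgCl p) = emb (sq ⟨u, hu⟩) := by
  have h := psi_of_mem (⟨u, hu⟩ : UU p)
  change psi p u = _ at h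
  rw [h]
  rfl

variable (p) in
theorem psi_continuous : Continuous (psi p) := by
  apply continuous_of_continuousAt_one
  rw [ContinuousAt, map_one]
  have hemb : Topology.IsEmbedding (Units.val : (PadicAlgCl p)ˣ → PadicAlgCl p) :=
    Units.isEmbedding_val₀
  rw [hemb.tendsto_nhds_iff]
  have h1 : Filter.Tendsto (fun u : ℤ_[p]ˣ => ‖(u : ℤ_[p]) - 1‖) (nhds 1) (nhds 0) := by
    have h2 : Continuous (fun u : ℤ_[p]ˣ => ‖(u : ℤ_[p]) - 1‖) :=
      (Units.continuous_val.sub continuous_const).norm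
    have h3 := h2.tendsto 1
    simpa using h3
  have hmem : ∀ᶠ u in nhds (1 : ℤ_[p]ˣ), u ∈ UU p := by
    have h4 := h1.eventually (gt_mem_nhds (pow_pos (nt_pos p) 2))
    filter_upwards [h4] with u hu using hu
  change Filter.Tendsto (fun u => ((psi p u : (PadicAlgCl p)ˣ) : PadicAlgCl p)) (nhds 1)
    (nhds ((1 : (PadicAlgCl p)ˣ) : PadicAlgCl p))
  rw [Units.val_one, tendsto_iff_norm_sub_tendsto_zero]
  have h5 : Filter.Tendsto (fun u : ℤ_[p]ˣ => ‖(u : ℤ_[p]) - 1‖ / nt p) (nhds 1) (nhds 0) := by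
    have := h1.div_const (nt p)
    simpa using this
  refine h5.congr' ?_
  filter_upwards [hmem] with u hu
  have h6 := norm_sq_sub (⟨u, hu⟩ : UU p)
  rw [psi_val_of_mem hu, ← emb_one, ← emb_sub, norm_emb, eq_comm, eq_div_iff (nt_pos p).ne']
  exact h6

variable (p) in
theorem exists_exponent : ∃ M : ℕ, M ≠ 0 ∧ ∀ u : ℤ_[p]ˣ, u ^ M ∈ UU p := by
  have : NeZero (p ^ 3) := ⟨(pow_pos hp.out.pos 3).ne'⟩
  refine ⟨Nat.totient (p ^ 3), (Nat.totient_pos.2 (pow_pos hp.out.pos 3)).ne', fun u => ?_⟩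
  rw [mem_UU]
  have h1 : PadicInt.toZModPow (p := p) 3 ((u : ℤ_[p]) ^ Nat.totient (p ^ 3) - 1) = 0 := by
    rw [map_sub, map_pow, map_one]
    have h2 := ZMod.pow_totient (Units.map (PadicInt.toZModPow (p := p) 3 : ℤ_[p] →* ZMod (p ^ 3)) u)
    have h3 := congrArg Units.val h2
    rw [Units.val_pow_eq_pow_val, Units.val_one] at h3
    change (PadicInt.toZModPow (p := p) 3 (u : ℤ_[p])) ^ Nat.totient (p ^ 3) = 1 at h3
    rw [h3, sub_self]
  have h4 : ((u : ℤ_[p]) ^ Nat.totient (p ^ 3) - 1) ∈ RingHom.ker (PadicInt.toZModPow (p := p) 3) := h1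
  rw [PadicInt.ker_toZModPow] at h4
  have h5 := (PadicInt.norm_le_pow_iff_mem_span_pow _ 3).2 h4
  rw [Units.val_pow_eq_pow_val]
  refine lt_of_le_of_lt h5 ?_
  have h6 := inv_le_nt p
  have hp0 : (0 : ℝ) < p := by exact_mod_cast hp.out.pos
  have h7 : ((p : ℝ)⁻¹) ^ 2 ≤ nt p ^ 2 := pow_le_pow_left₀ (by positivity) h6 2
  refine lt_of_lt_of_le ?_ h7
  have e1 : (p : ℝ) ^ (-((3 : ℕ) : ℤ)) = ((p : ℝ)⁻¹) ^ 3 := by
    rw [zpow_neg, zpow_natCast, inv_pow]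
  rw [e1]
  have h8 : (p : ℝ)⁻¹ < 1 := inv_lt_one_of_one_lt₀ (one_lt_p p)
  have h9 : 0 < ((p : ℝ)⁻¹) ^ 2 := by positivity
  calc ((p : ℝ)⁻¹) ^ 3 = ((p : ℝ)⁻¹) ^ 2 * (p : ℝ)⁻¹ := by ring
    _ < ((p : ℝ)⁻¹) ^ 2 * 1 := mul_lt_mul_of_pos_left h8 h9
    _ = _ := mul_one _

variable (p) in
theorem psi_pow : ∃ M : ℕ, M ≠ 0 ∧ ∀ u : ℤ_[p]ˣ,
    ((psi p u : (PadicAlgCl p)ˣ) : PadicAlgCl p) ^ (2 * M) = emb (u : ℤ_[p]) ^ M := by
  obtain ⟨M, hM, h⟩ := exists_exponent p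
  refine ⟨M, hM, fun u => ?_⟩
  have h1 := psi_val_of_mem (h u)
  rw [map_pow, Units.val_pow_eq_pow_val] at h1
  rw [mul_comm 2 M, pow_mul, h1, ← emb_pow, sq_sq, ← emb_pow]
  rfl

end Pool.Agent.Y804.FM
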