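import Pool.Agent.Y804.FM.Fin
import Pool.Agent.Y804.FM.Sqrt
import Pool.Agent.Y804.FM.Glob
import Pool.Agent.Y804.FM.Defs

/-!
The half-integral power of the cyclotomic character is not de Rham.
-/

set_option autoImplicit false
set_option linter.unusedSectionVars false

open NumberField TensorProduct

namespace Pool.Agent.Y804.FM

variable {l : ℕ} [hl : Fact l.Prime] {F : Type} [Field F] [NumberField F]

/-- The cyclotomic characters of `F` and of `ℚ_l` are compatible. -/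
theorem chi_compat {ι : AlgebraicClosure F →+* PadicAlgCl l} {σ : Gal(PadicAlgCl l/ℚ_[l])}
    {τ : Gal(AlgebraicClosure F/F)} (h : ∀ y, σ (ι y) = ι (τ y)) : chiF l τ = chi l σ := by
  apply Units.ext
  refine padic_eq_of_val fun n hn => ?_
  obtain ⟨t, ht⟩ := exists_prim (F := F) (l := l) n
  have hNZ : NeZero (l ^ n) := ⟨pow_ne_zero _ hl.out.ne_zero⟩
  have ht' : IsPrimitiveRoot (ι t) (l ^ n) := ht.map_of_injective ι.injective
  have h1 := chi_spec σ n (ι t) ht'.pow_eq_one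
  rw [h, chiF_spec (l := l) τ n ht.pow_eq_one, map_pow] at h1
  have h2 := ht'.pow_inj (ZMod.val_lt _) (ZMod.val_lt _) h1
  exact ZMod.val_injective _ h2

/-- Restriction of automorphisms along an embedding of the algebraic closure of `F`. -/
theorem exists_restrict (ι : AlgebraicClosure F →+* PadicAlgCl l) (σ : Gal(PadicAlgCl l/ℚ_[l]))
    (hσ : ∀ a : F, σ (ι (algebraMap F (AlgebraicClosure F) a)) =
      ι (algebraMap F (AlgebraicClosure F) a)) :
    ∃ τ : Gal(AlgebraicClosure F/F), ∀ y, σ (ι y) = ι (τ y) := by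
  let a1 : Algebra (AlgebraicClosure F) (PadicAlgCl l) := ι.toAlgebra
  let a2 : Algebra F (PadicAlgCl l) := (ι.comp (algebraMap F (AlgebraicClosure F))).toAlgebra
  have a3 : IsScalarTower F (AlgebraicClosure F) (PadicAlgCl l) :=
    IsScalarTower.of_algebraMap_eq (fun _ => rfl)
  let σ' : PadicAlgCl l ≃ₐ[F] PadicAlgCl l :=
    AlgEquiv.ofRingEquiv (f := (σ : PadicAlgCl l ≃+* PadicAlgCl l)) (fun a => hσ a)
  refine ⟨σ'.restrictNormal (AlgebraicClosure F), fun y => ?_⟩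
  exact (σ'.restrictNormal_commutes (AlgebraicClosure F) y).symm

theorem localField_finite (ι : AlgebraicClosure F →+* PadicAlgCl l) :
    FiniteDimensional ℚ_[l] (localField ι) := by
  classical
  -- `F` is generated over `ℚ` by a finite basis
  let b := Module.finBasis ℚ F
  let S : Set (PadicAlgCl l) := Set.range fun i => ι (algebraMap F (AlgebraicClosure F) (b i))
  have hS : Finite S := Set.finite_range _
  have h1 : localField ι = IntermediateField.adjoin ℚ_[l] S := by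
    apply le_antisymm
    · rw [localField, IntermediateField.adjoin_le_iff]
      rintro _ ⟨a, rfl⟩
      change ι (algebraMap F (AlgebraicClosure F) a) ∈ IntermediateField.adjoin ℚ_[l] S
      rw [← b.sum_repr a, map_sum, map_sum]
      refine sum_mem fun i _ => ?_
      rw [Algebra.smul_def, map_mul, map_mul]
      refine mul_mem ?_ (IntermediateField.subset_adjoin _ _ ⟨i, rfl⟩)
      have h2 : ι (algebraMap F (AlgebraicClosure F) (algebraMap ℚ F (b.repr a i))) =
          algebraMap ℚ_[l] (PadicAlgCl l) ((b.repr a i : ℚ) : ℚ_[l]) := by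
        rw [eq_ratCast, map_ratCast, map_ratCast, map_ratCast]
      rw [h2]
      exact IntermediateField.algebraMap_mem _ _
    · rw [IntermediateField.adjoin_le_iff]
      rintro _ ⟨i, rfl⟩
      exact IntermediateField.subset_adjoin _ _ ⟨b i, rfl⟩
  rw [h1]
  exact IntermediateField.finiteDimensional_adjoin fun x _ => Algebra.IsIntegral.isIntegral x

theorem finiteIndex_fixing (K : IntermediateField ℚ_[l] (PadicAlgCl l))
    [FiniteDimensional ℚ_[l] K] : K.fixingSubgroup.FiniteIndex := by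
  have h1 : IsOpen (K.fixingSubgroup : Set Gal(PadicAlgCl l/ℚ_[l])) := K.fixingSubgroup_isOpen
  have h2 : Finite (Gal(PadicAlgCl l/ℚ_[l]) ⧸ K.fixingSubgroup) :=
    K.fixingSubgroup.quotient_finite_of_isOpen h1
  exact Subgroup.finiteIndex_of_finite_quotient

/-! ### The scalar on an open subgroup -/

theorem chi_mem_UU {σ : Gal(PadicAlgCl l/ℚ_[l])} (h : σ ∈ HN l 3) : chi l σ ∈ UU l := by
  rw [mem_HN] at h
  have h1 := chi_spec σ 3 (zeta l 3) (zeta_prim l 3).pow_eq_one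
  rw [h] at h1
  have hlt : 1 < l ^ 3 := one_lt_pow₀ hl.out.one_lt (by norm_num)
  have : NeZero (l ^ 3) := ⟨(pow_pos hl.out.pos 3).ne'⟩
  have h3 := (zeta_prim l 3).pow_inj (ZMod.val_lt _) hlt (by rw [← h1, pow_one])
  have h2 : (PadicInt.toZModPow 3 (chi l σ : ℤ_[l])) = 1 := by
    apply ZMod.val_injective
    rw [h3, ZMod.val_one'' hlt.ne']
  have h4 : (chi l σ : ℤ_[l]) - 1 ∈ RingHom.ker (PadicInt.toZModPow (p := l) 3) := by
    rw [RingHom.mem_ker, map_sub, h2, map_one, sub_self]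
  rw [PadicInt.ker_toZModPow] at h4
  have h5 := (PadicInt.norm_le_pow_iff_mem_span_pow _ 3).2 h4
  rw [mem_UU]
  refine lt_of_le_of_lt h5 ?_
  have h6 := inv_le_nt l
  have hp0 : (0 : ℝ) < l := by exact_mod_cast hl.out.pos
  have h7 : ((l : ℝ)⁻¹) ^ 2 ≤ nt l ^ 2 := pow_le_pow_left₀ (by positivity) h6 2
  refine lt_of_lt_of_le ?_ h7
  have e1 : (l : ℝ) ^ (-((3 : ℕ) : ℤ)) = ((l : ℝ)⁻¹) ^ 3 := by
    rw [zpow_neg, zpow_natCast, inv_pow]
  rw [e1]
  have h8 : (l : ℝ)⁻¹ < 1 := inv_lt_one_of_one_lt₀ (W292.FM.one_lt_p l)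
  have h9 : 0 < ((l : ℝ)⁻¹) ^ 2 := by positivity
  calc ((l : ℝ)⁻¹) ^ 3 = ((l : ℝ)⁻¹) ^ 2 * (l : ℝ)⁻¹ := by ring
    _ < ((l : ℝ)⁻¹) ^ 2 * 1 := mul_lt_mul_of_pos_left h8 h9
    _ = _ := mul_one _

open Classical in
/-- The square root of the cyclotomic character on an open subgroup, extended by `1`. -/
noncomputable def cc (σ : Gal(PadicAlgCl l/ℚ_[l])) : ℚ_[l] :=
  if h : chi l σ ∈ UU l then ((sq ⟨chi l σ, h⟩ : ℤ_[l]) : ℚ_[l]) else 1

theorem cc_eq {σ : Gal(PadicAlgCl l/ℚ_[l])} (h : chi l σ ∈ UU l) :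
    cc σ = ((sq ⟨chi l σ, h⟩ : ℤ_[l]) : ℚ_[l]) := dif_pos h

theorem chi_mul (g h : Gal(PadicAlgCl l/ℚ_[l])) : chi l (g * h) = chi l g * chi l h := by
  unfold chi
  rw [← map_mul]
  rfl

theorem cc_mul {g h : Gal(PadicAlgCl l/ℚ_[l])} (hg : g ∈ HN l 3) (hh : h ∈ HN l 3) :
    cc (g * h) = cc g * cc h := by
  have h1 := chi_mem_UU hg
  have h2 := chi_mem_UU hh
  have h3 := chi_mem_UU (mul_mem hg hh)
  rw [cc_eq h1, cc_eq h2, cc_eq h3, ← PadicInt.coe_mul, ← sq_mul]
  congr 2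
  exact Subtype.ext (chi_mul g h)

theorem cc_sq {g : Gal(PadicAlgCl l/ℚ_[l])} (hg : g ∈ HN l 3) :
    cc g ^ (2 * 1) = ((chi l g : ℤ_[l]) : ℚ_[l]) ^ 1 := by
  rw [mul_one, pow_one, cc_eq (chi_mem_UU hg), ← PadicInt.coe_pow, sq_sq]

theorem cc_one {g : Gal(PadicAlgCl l/ℚ_[l])} (hg : ∀ n, g (zeta l n) = zeta l n) : cc g = 1 := by
  have h1 : chi l g = 1 := by
    apply Units.ext
    refine padic_eq_of_val fun n hn => ?_
    have : NeZero (l ^ n) := ⟨(pow_pos hl.out.pos n).ne'⟩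
    have h2 := chi_spec g n (zeta l n) (zeta_prim l n).pow_eq_one
    rw [hg n] at h2
    have hlt : 1 < l ^ n := one_lt_pow₀ hl.out.one_lt hn
    have h3 := (zeta_prim l n).pow_inj (ZMod.val_lt _) hlt (by rw [← h2, pow_one])
    apply ZMod.val_injective
    rw [h3, Units.val_one, map_one, ZMod.val_one'' hlt.ne']
  have h2 : chi l g ∈ UU l := by rw [h1]; exact one_mem _
  rw [cc_eq h2]
  have h3 : (⟨chi l g, h2⟩ : UU l) = 1 := Subtype.ext h1
  rw [h3, sq_one, PadicInt.coe_one]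

theorem psi_chi {σ : Gal(PadicAlgCl l/ℚ_[l])} (h : σ ∈ HN l 3) :
    ((psi l (chi l σ) : (PadicAlgCl l)ˣ) : PadicAlgCl l) =
      algebraMap ℚ_[l] (PadicAlgCl l) (cc σ) := by
  rw [psi_val_of_mem (chi_mem_UU h), cc_eq (chi_mem_UU h)]
  rfl

theorem cc_ne_zero {g : Gal(PadicAlgCl l/ℚ_[l])} (hg : g ∈ HN l 3) : cc g ≠ 0 := by
  intro h
  have h1 := cc_sq hg
  rw [h, zero_pow (by norm_num), pow_one] at h1
  exact coe_chi_ne_zero l g h1.symm

/-! ### The representation -/

/-- Scalar matrices. -/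
noncomputable def scal : (PadicAlgCl l)ˣ →* GL (Fin 1) (PadicAlgCl l) :=
  Units.map (algebraMap (PadicAlgCl l) (Matrix (Fin 1) (Fin 1) (PadicAlgCl l))).toMonoidHom

variable (l F) in
/-- The power of exponent `-1/2` of the cyclotomic character, up to a character of finite order. -/
noncomputable def rho : Gal(AlgebraicClosure F/F) →* GL (Fin 1) (PadicAlgCl l) :=
  scal.comp ((psi l).comp (chiF l))⁻¹

theorem rho_apply (τ : Gal(AlgebraicClosure F/F)) :
    rho l F τ = scal (psi l (chiF l τ))⁻¹ := rfl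

theorem rho_val (τ : Gal(AlgebraicClosure F/F)) :
    ((rho l F τ : GL (Fin 1) (PadicAlgCl l)) : Matrix (Fin 1) (Fin 1) (PadicAlgCl l)) =
      algebraMap (PadicAlgCl l) (Matrix (Fin 1) (Fin 1) (PadicAlgCl l))
        (((psi l (chiF l τ))⁻¹ : (PadicAlgCl l)ˣ) : PadicAlgCl l) := rfl

/-- Contraction with a linear functional. -/
noncomputable def contr (φ : (Fin 1 → PadicAlgCl l) →ₗ[ℚ_[l]] ℚ_[l]) :
    (Fin 1 → PadicAlgCl l) ⊗[ℚ_[l]] BdR l →ₗ[ℚ_[l]] BdR l :=
  (TensorProduct.lid ℚ_[l] (BdR l)).toLinearMap ∘ₗ LinearMap.rTensor (BdR l) φ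

theorem contr_tmul (φ : (Fin 1 → PadicAlgCl l) →ₗ[ℚ_[l]] ℚ_[l]) (v : Fin 1 → PadicAlgCl l)
    (b : BdR l) : contr φ (v ⊗ₜ b) = φ v • b := by
  simp [contr]

theorem eq_zero_of_contr {x : (Fin 1 → PadicAlgCl l) ⊗[ℚ_[l]] BdR l}
    (h : ∀ φ : (Fin 1 → PadicAlgCl l) →ₗ[ℚ_[l]] ℚ_[l], contr φ x = 0) : x = 0 := by
  classical
  let 𝓑 := Module.Basis.ofVectorSpace ℚ_[l] (Fin 1 → PadicAlgCl l)
  have key : ∀ x : (Fin 1 → PadicAlgCl l) ⊗[ℚ_[l]] BdR l, ∃ s : Finset _,
      x = ∑ i ∈ s, 𝓑 i ⊗ₜ[ℚ_[l]] contr (𝓑.coord i) x ∧ ∀ i ∉ s, contr (𝓑.coord i) x = 0 := by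
    intro x
    induction x using TensorProduct.induction_on with
    | zero => exact ⟨∅, by simp, by simp⟩
    | tmul v b =>
      refine ⟨(𝓑.repr v).support, ?_, ?_⟩
      · conv_lhs => rw [← 𝓑.linearCombination_repr v]
        rw [Finsupp.linearCombination_apply, Finsupp.sum, TensorProduct.sum_tmul]
        refine Finset.sum_congr rfl fun i _ => ?_
        rw [contr_tmul, Module.Basis.coord_apply, TensorProduct.smul_tmul]
      · intro i hi
        rw [contr_tmul, Module.Basis.coord_apply, Finsupp.notMem_support_iff.1 hi, zero_smul]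
    | add x y hx hy =>
      obtain ⟨s, hs1, hs2⟩ := hx
      obtain ⟨t, ht1, ht2⟩ := hy
      refine ⟨s ∪ t, ?_, ?_⟩
      · have e1 : x = ∑ i ∈ s ∪ t, 𝓑 i ⊗ₜ[ℚ_[l]] contr (𝓑.coord i) x := by
          nth_rw 1 [hs1]
          refine Finset.sum_subset Finset.subset_union_left fun i _ hi => ?_
          rw [hs2 i hi, TensorProduct.tmul_zero]
        have e2 : y = ∑ i ∈ s ∪ t, 𝓑 i ⊗ₜ[ℚ_[l]] contr (𝓑.coord i) y := by
          nth_rw 1 [ht1]
          refine Finset.sum_subset Finset.subset_union_right fun i _ hi => ?_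
          rw [ht2 i hi, TensorProduct.tmul_zero]
        nth_rw 1 [e1, e2]
        rw [← Finset.sum_add_distrib]
        refine Finset.sum_congr rfl fun i _ => ?_
        rw [map_add, TensorProduct.tmul_add]
      · intro i hi
        rw [Finset.mem_union, not_or] at hi
        rw [map_add, hs2 i hi.1, ht2 i hi.2, add_zero]
  obtain ⟨s, hs, _⟩ := key x
  rw [hs]
  refine Finset.sum_eq_zero fun i _ => ?_
  rw [h, TensorProduct.tmul_zero]

theorem contr_map (φ : (Fin 1 → PadicAlgCl l) →ₗ[ℚ_[l]] ℚ_[l]) (σ : Gal(PadicAlgCl l/ℚ_[l]))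
    (M : Matrix (Fin 1) (Fin 1) (PadicAlgCl l)) (c : ℚ_[l])
    (hM : M = algebraMap (PadicAlgCl l) _ (algebraMap ℚ_[l] (PadicAlgCl l) c))
    (x : (Fin 1 → PadicAlgCl l) ⊗[ℚ_[l]] BdR l) :
    contr φ (AlgebraTensorModule.map (Matrix.mulVecLin M) (galBdR l σ).toLinearMap x) =
      c • galBdR l σ (contr φ x) := by
  induction x using TensorProduct.induction_on with
  | zero => simp
  | tmul v b =>
    rw [AlgebraTensorModule.map_tmul, contr_tmul, contr_tmul]
    have h1 : Matrix.mulVecLin M v = c • v := by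
      rw [Matrix.mulVecLin_apply, hM]
      funext i
      fin_cases i
      simp [Matrix.mulVec, dotProduct, Algebra.smul_def, Matrix.algebraMap_matrix_apply]
    rw [h1, map_smul, smul_eq_mul, mul_smul, AlgHom.toLinearMap_apply, map_smul]
  | add x y hx hy => rw [map_add, map_add, hx, hy, map_add, map_add, smul_add]

theorem mem_DdR {n : ℕ} (ι : AlgebraicClosure F →+* PadicAlgCl l)
    (ρ : Gal(AlgebraicClosure F/F) →* GL (Fin n) (PadicAlgCl l)) (x : VdR l n) :
    x ∈ DdR ι ρ ↔ ∀ (σ : Gal(PadicAlgCl l/ℚ_[l])) (τ : Gal(AlgebraicClosure F/F)),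
      (∀ y, σ (ι y) = ι (τ y)) →
        actVdR (ρ τ : Matrix (Fin n) (Fin n) (PadicAlgCl l)) σ x = x := by
  simp only [DdR, Submodule.mem_iInf, LinearMap.mem_eqLocus, LinearMap.id_apply]

/-- `D_dR` of the half-integral power of the cyclotomic character vanishes. -/
theorem DdR_rho (ι : AlgebraicClosure F →+* PadicAlgCl l) : DdR ι (rho l F) = ⊥ := by
  rw [Submodule.eq_bot_iff]
  intro x hx
  rw [mem_DdR] at hx
  have hfd := localField_finite (F := F) ι
  have hfi := finiteIndex_fixing (localField ι)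
  let x' : (Fin 1 → PadicAlgCl l) ⊗[ℚ_[l]] BdR l := x
  change x' = 0
  refine eq_zero_of_contr fun φ => ?_
  refine no_eigen_fin l (N := 3) (M := 1) one_ne_zero cc (fun g hg h hh => cc_mul hg hh)
    (fun g hg => cc_sq hg) (fun g hg => cc_one hg) (localField ι).fixingSubgroup ?_
  intro σ hσ hσ1
  obtain ⟨τ, hτ⟩ := exists_restrict ι σ (fun a => by
    have := (IntermediateField.mem_fixingSubgroup_iff (localField ι) σ).1 hσ1
      (ι (algebraMap F (AlgebraicClosure F) a))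
      (IntermediateField.subset_adjoin _ _ ⟨a, rfl⟩)
    exact this)
  have h1 : AlgebraTensorModule.map (Matrix.mulVecLin
      ((rho l F τ : GL (Fin 1) (PadicAlgCl l)) : Matrix (Fin 1) (Fin 1) (PadicAlgCl l)))
      (galBdR l σ).toLinearMap x' = x' := hx σ τ hτ
  have h2 := congrArg (contr φ) h1
  have h3 : ((rho l F τ : GL (Fin 1) (PadicAlgCl l)) : Matrix (Fin 1) (Fin 1) (PadicAlgCl l)) =
      algebraMap (PadicAlgCl l) (Matrix (Fin 1) (Fin 1) (PadicAlgCl l))
        (algebraMap ℚ_[l] (PadicAlgCl l) (cc σ)⁻¹) := by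
    rw [rho_val, chi_compat hτ, Units.val_inv_eq_inv_val, psi_chi hσ,
      map_inv₀ (algebraMap ℚ_[l] (PadicAlgCl l))]
  rw [contr_map φ σ _ _ h3] at h2
  have h4 : galBdR l σ (contr φ x') = cc σ • contr φ x' := by
    have h5 := congrArg (fun y => cc σ • y) h2
    simp only [smul_smul] at h5
    rw [mul_inv_cancel₀ (cc_ne_zero hσ), one_smul] at h5
    exact h5
  rw [Algebra.smul_def] at h4
  exact h4

theorem not_isDeRham (ι : AlgebraicClosure F →+* PadicAlgCl l) : ¬ IsDeRham ι (rho l F) := by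
  intro h
  have hfd := localField_finite (F := F) ι
  have hpos : 0 < Module.finrank ℚ_[l] (localField ι) := Module.finrank_pos
  rw [IsDeRham, DdR_rho, finrank_bot, one_mul] at h
  omega

end Pool.Agent.Y804.FM
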