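import Pool.Agent.Y804.FM.Loc

/-!
The half-integral power of the cyclotomic character: continuity, integrality and purity.
-/

set_option autoImplicit false
set_option linter.unusedSectionVars false

open NumberField TensorProduct

namespace Pool.Agent.Y804.FM

variable {l : ℕ} [hl : Fact l.Prime] {F : Type} [Field F] [NumberField F]

theorem scal_continuous : Continuous (scal (l := l)) := by
  unfold scal
  refine Continuous.units_map _ ?_
  change Continuous (algebraMap (PadicAlgCl l) (Matrix (Fin 1) (Fin 1) (PadicAlgCl l)))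
  refine continuous_pi fun i => continuous_pi fun j => ?_
  fin_cases i
  fin_cases j
  simp only [Matrix.algebraMap_matrix_apply]
  exact continuous_id

theorem rho_continuous : Continuous (rho l F) := by
  unfold rho
  refine scal_continuous.comp ?_
  change Continuous fun τ => (psi l (chiF l (F := F) τ))⁻¹
  exact ((psi_continuous l).comp chiF_continuous).inv

theorem root_of_charpoly {a c : PadicAlgCl l}
    (h : (algebraMap (PadicAlgCl l) (Matrix (Fin 1) (Fin 1) (PadicAlgCl l)) c).charpoly.IsRoot a) :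
    a = c := by
  rw [Polynomial.IsRoot, Matrix.eval_charpoly] at h
  have h1 : Matrix.det (Matrix.scalar (Fin 1) a -
      algebraMap (PadicAlgCl l) (Matrix (Fin 1) (Fin 1) (PadicAlgCl l)) c) = a - c := by
    rw [Matrix.det_fin_one]
    simp [Matrix.algebraMap_matrix_apply]
  rw [h1] at h
  exact sub_eq_zero.1 h

theorem emb_natCast (q : ℕ) : emb (p := l) (q : ℤ_[l]) = (q : PadicAlgCl l) := by
  rw [emb]
  have : (((q : ℕ) : ℤ_[l]) : ℚ_[l]) = ((q : ℕ) : ℚ_[l]) := by push_cast; rfl
  rw [this, map_natCast]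

/-- An element whose `2 M`-th power is `q ^ M` is integral and pure of weight one. -/
theorem pure_of_pow {a : PadicAlgCl l} {M q : ℕ} (hM : M ≠ 0)
    (ha : a ^ (2 * M) = (q : PadicAlgCl l) ^ M) :
    IsIntegral ℤ a ∧ ∀ z : ℂ, Polynomial.aeval z (minpoly ℚ a) = 0 →
      ‖z‖ = (q : ℝ) ^ (((1 : ℤ) : ℝ) / 2) := by
  have hM2 : 2 * M ≠ 0 := by omega
  constructor
  · refine ⟨Polynomial.X ^ (2 * M) - Polynomial.C ((q : ℤ) ^ M),
      Polynomial.monic_X_pow_sub_C _ hM2, ?_⟩
    simp [ha]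
  · intro z hz
    have h1 : minpoly ℚ a ∣ Polynomial.X ^ (2 * M) - Polynomial.C ((q : ℚ) ^ M) := by
      apply minpoly.dvd
      simp [ha]
    obtain ⟨g, hg⟩ := h1
    have h2 : Polynomial.aeval z (Polynomial.X ^ (2 * M) - Polynomial.C ((q : ℚ) ^ M)) = 0 := by
      rw [hg, map_mul, hz, zero_mul]
    have h3 : z ^ (2 * M) = (q : ℂ) ^ M := by
      simpa [sub_eq_zero] using h2
    have h4 := congrArg norm h3
    rw [norm_pow, norm_pow, Complex.norm_natCast] at h4
    have h5 : (‖z‖ ^ 2) ^ M = (q : ℝ) ^ M := by rw [← pow_mul]; exact h4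
    have h6 : ‖z‖ ^ 2 = (q : ℝ) := (pow_left_inj₀ (by positivity) (by positivity) hM).1 h5
    have h7 : ‖z‖ = Real.sqrt q := by
      rw [← h6, Real.sqrt_sq (norm_nonneg z)]
    rw [h7, Real.sqrt_eq_rpow]
    norm_num

theorem rho_pure : UnramifiedIntegralPure 1 (rho l F) := by
  intro P hP hlP
  refine ⟨fun τ hτ => ?_, fun τ hτ a ha => ?_⟩
  · rw [rho_apply, chiF_inertia hP hlP hτ, map_one, inv_one, map_one]
  · rw [rho_val] at ha
    have h1 := root_of_charpoly ha
    have h2 := chiF_frob hP hlP hτ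
    set q := Nat.card (𝓞 F ⧸ P.under (𝓞 F)) with hq
    obtain ⟨M, hM, hpsi⟩ := psi_pow l
    refine pure_of_pow hM ?_
    have h3 := hpsi (chiF l τ)
    have h4 : (a : PadicAlgCl l) ^ (2 * M) * emb (chiF l τ : ℤ_[l]) ^ M = 1 := by
      rw [h1, Units.val_inv_eq_inv_val, inv_pow, h3]
      exact inv_mul_cancel₀ (pow_ne_zero _ (emb_ne_zero (Units.ne_zero _)))
    have h5 : emb (p := l) (chiF l τ : ℤ_[l]) * (q : PadicAlgCl l) = 1 := by
      rw [← emb_natCast, ← emb_mul, h2, emb_one]
    calc a ^ (2 * M) = a ^ (2 * M) * (emb (chiF l τ : ℤ_[l]) * (q : PadicAlgCl l)) ^ M := by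
          rw [h5, one_pow, mul_one]
      _ = (a ^ (2 * M) * emb (chiF l τ : ℤ_[l]) ^ M) * (q : PadicAlgCl l) ^ M := by ring
      _ = (q : PadicAlgCl l) ^ M := by rw [h4, one_mul]

theorem nonempty_embedding : Nonempty (AlgebraicClosure F →+* PadicAlgCl l) := by
  have hF : Algebra.IsAlgebraic ℚ (AlgebraicClosure F) := by
    have : Algebra.IsAlgebraic ℚ F := Algebra.IsAlgebraic.of_finite ℚ F
    exact Algebra.IsAlgebraic.trans ℚ F (AlgebraicClosure F)
  exact ⟨(IsAlgClosed.lift (R := ℚ) (S := AlgebraicClosure F) (M := PadicAlgCl l)).toRingHom⟩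

/-- The counterexample. -/
theorem main (l : ℕ) [Fact l.Prime] (F : Type) [Field F] [NumberField F] :
    ∃ ρ : Gal(AlgebraicClosure F/F) →* GL (Fin 1) (PadicAlgCl l),
      Continuous ρ ∧ UnramifiedIntegralPure 1 ρ ∧
      Nonempty (AlgebraicClosure F →+* PadicAlgCl l) ∧
      ∀ ι : AlgebraicClosure F →+* PadicAlgCl l, ¬ IsDeRham ι ρ :=
  ⟨rho l F, rho_continuous, rho_pure, nonempty_embedding, not_isDeRham⟩

end Pool.Agent.Y804.FM
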