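import Pool.Agent.Y804.FM.Tower

/-!
Tate's theorem for characters of the Galois group of the cyclotomic tower over `ℚ_[p]`.
-/

set_option autoImplicit false
set_option linter.unusedSectionVars false

namespace Pool.Agent.Y804.FM

open Polynomial Pool.Agent.W292.FM

variable {p : ℕ} [hp : Fact p.Prime]

variable (p) in
/-- the field generated over `ℚ_[p]` by all `p`-power roots of unity -/
noncomputable def Kinf : IntermediateField ℚ_[p] (PadicAlgCl p) :=
  IntermediateField.adjoin ℚ_[p] (Set.range (zeta p))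

theorem exists_InK_of_mem {a : PadicAlgCl p} (ha : a ∈ Kinf p) : ∃ m, InK p m a := by
  have h1 : a ∈ (Kinf p).toSubalgebra := ha
  rw [Kinf, IntermediateField.adjoin_toSubalgebra_of_isAlgebraic
    (fun x _ => Algebra.IsAlgebraic.isAlgebraic x)] at h1
  clear ha
  induction h1 using Algebra.adjoin_induction with
  | mem x hx =>
    obtain ⟨n, rfl⟩ := hx
    exact ⟨n, X, by simp⟩
  | algebraMap r => exact ⟨0, InK.const 0 r⟩
  | add x y _ _ hx hy =>
    obtain ⟨m, hm⟩ := hx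
    obtain ⟨n, hn⟩ := hy
    exact ⟨max m n, (hm.mono (le_max_left _ _)).add (hn.mono (le_max_right _ _))⟩
  | mul x y _ _ hx hy =>
    obtain ⟨m, hm⟩ := hx
    obtain ⟨n, hn⟩ := hy
    exact ⟨max m n, (hm.mono (le_max_left _ _)).mul (hn.mono (le_max_right _ _))⟩

theorem InK.gal {n : ℕ} (g : Gal(PadicAlgCl p/ℚ_[p])) {a : PadicAlgCl p} (ha : InK p n a) :
    InK p n (g a) := by
  obtain ⟨f, rfl⟩ := ha
  obtain ⟨u, hu⟩ := exists_pow_eq n g
  refine ⟨f.comp (X ^ u), ?_⟩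
  rw [← aeval_algHom_apply, hu, aeval_comp, map_pow, aeval_X]

theorem zeta_fix_of_le {m n : ℕ} (h : m ≤ n) {g : Gal(PadicAlgCl p/ℚ_[p])}
    (hg : g (zeta p n) = zeta p n) : g (zeta p m) = zeta p m := by
  obtain ⟨k, rfl⟩ := Nat.exists_eq_add_of_le h
  rw [← zeta_add_pow p m k, map_pow, hg]

theorem coe_add_alg (x y : PadicAlgCl p) : ((x + y : PadicAlgCl p) : ℂ_[p]) =
    (x : ℂ_[p]) + (y : ℂ_[p]) := by
  rw [PadicComplex.coe_eq, PadicComplex.coe_eq, PadicComplex.coe_eq, map_add]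

/-- Approximation by elements of the cyclotomic tower (Ax, Sen and Tate). -/
theorem exists_approx {x : ℂ_[p]} (hx : ∀ g : Gal(PadicAlgCl p/ℚ_[p]),
    (∀ n, g (zeta p n) = zeta p n) → cpMap p g x = x) {ε : ℝ} (hε : 0 < ε) (N : ℕ) :
    ∃ n, N ≤ n ∧ ∃ a : PadicAlgCl p, InK p n a ∧ ‖x - (a : ℂ_[p])‖ ≤ ε := by
  have hp0 : (0 : ℝ) < p := by exact_mod_cast hp.out.pos
  have hp1 : (1 : ℝ) ≤ p := (one_lt_p p).le
  set r := ε / (p : ℝ) ^ 2 with hr
  have hr0 : 0 < r := by positivity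
  obtain ⟨α, hα⟩ : ∃ α : PadicAlgCl p, dist x (α : ℂ_[p]) < r := by
    have hd := UniformSpace.Completion.denseRange_coe (α := PadicAlgCl p)
    exact hd.exists_dist_lt x hr0
  rw [dist_eq_norm] at hα
  have h1 : ∀ σ : Gal(PadicAlgCl p/ℚ_[p]), (∀ y ∈ Kinf p, σ y = y) → ‖σ α - α‖ ≤ r := by
    intro σ hσ
    have h2 : cpMap p σ x = x := hx σ fun n => hσ _ (by
      rw [Kinf]
      exact IntermediateField.subset_adjoin _ _ ⟨n, rfl⟩)
    have e : ((σ α - α : PadicAlgCl p) : ℂ_[p]) = -(cpMap p σ (x - (α : ℂ_[p]))) + (x - α) := by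
      rw [map_sub, h2, cpMap_coe, coe_sub_alg]
      ring
    rw [← PadicComplex.norm_extends, e]
    refine (IsUltrametricDist.norm_add_le_max _ _).trans (max_le ?_ hα.le)
    rw [norm_neg, norm_cpMap]
    exact hα.le
  obtain ⟨a, ha, hαa⟩ := ax p (Kinf p) α r hr0.le h1
  obtain ⟨m, hm⟩ := exists_InK_of_mem ha
  refine ⟨max m N, le_max_right _ _, a, hm.mono (le_max_left _ _), ?_⟩
  have e : x - (a : ℂ_[p]) = (x - (α : ℂ_[p])) + ((α - a : PadicAlgCl p) : ℂ_[p]) := by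
    rw [coe_sub_alg]; ring
  have h3 : (p : ℝ) ^ 2 * r = ε := by rw [hr]; field_simp
  have h4 : r ≤ ε := by
    rw [hr]
    exact div_le_self hε.le (one_le_pow₀ hp1)
  rw [e]
  refine (IsUltrametricDist.norm_add_le_max _ _).trans (max_le (hα.le.trans h4) ?_)
  rw [PadicComplex.norm_extends, ← h3]
  exact hαa

/-- **Tate's theorem**: a character of infinite order of the Galois group of the cyclotomic tower
has no nonzero eigenvector in `ℂ_[p]`. -/
theorem tate {x : ℂ_[p]} (N : ℕ) (η : Gal(PadicAlgCl p/ℚ_[p]) → ℚ_[p]) (h1 : ∀ g, ‖η g‖ ≤ 1)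
    (h0 : ∀ g, (∀ n, g (zeta p n) = zeta p n) → η g = 1)
    (h2 : ∀ n, ∃ g, g (zeta p n) = zeta p n ∧ η g ≠ 1)
    (hx : ∀ g, g (zeta p N) = zeta p N → cpMap p g x = algebraMap ℚ_[p] ℂ_[p] (η g) * x) :
    x = 0 := by
  by_contra hne
  have hp0 : (0 : ℝ) < p := by exact_mod_cast hp.out.pos
  have hp1 : (1 : ℝ) < p := one_lt_p p
  have hxpos : 0 < ‖x‖ := norm_pos_iff.2 hne
  have hfix : ∀ g : Gal(PadicAlgCl p/ℚ_[p]), (∀ n, g (zeta p n) = zeta p n) →
      cpMap p g x = x := by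
    intro g hg
    rw [hx g (hg N), h0 g hg, map_one, one_mul]
  set δ := ‖x‖ / (2 * p) with hδ
  have hδ0 : 0 < δ := by positivity
  have hδx : p * δ = ‖x‖ / 2 := by rw [hδ]; field_simp
  have hδlt : δ < ‖x‖ := by
    have : δ ≤ p * δ := by nlinarith
    linarith
  obtain ⟨n', hn', a, ha, hxa⟩ := exists_approx hfix hδ0 (N + 1)
  obtain ⟨n, rfl⟩ : ∃ n, n' = n + 1 := ⟨n' - 1, by omega⟩
  have hNn : N ≤ n + 1 := by omega
  have hanorm : ‖a‖ = ‖x‖ := by
    rw [← PadicComplex.norm_extends]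
    have e : (a : ℂ_[p]) = -(x - a) + x := by ring
    rw [e, IsUltrametricDist.norm_add_eq_max_of_norm_ne_norm (by
      rw [norm_neg]; exact (lt_of_le_of_lt hxa hδlt).ne), norm_neg]
    exact max_eq_right (hxa.trans hδlt.le)
  obtain ⟨h, hh1, hh2⟩ := h2 (n + 1)
  set t := ‖1 - η h‖ with ht
  have ht0 : 0 < t := norm_pos_iff.2 (sub_ne_zero.2 (Ne.symm hh2))
  set δ' := min δ (t * δ) with hδ'
  have hδ'0 : 0 < δ' := lt_min hδ0 (by positivity)
  obtain ⟨m, _, b, hb, hxb⟩ := exists_approx hfix hδ'0 0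
  have hb' : InK p (n + 1 + m) b := hb.mono (by omega)
  -- the eigenvector relation for `b`
  have hbrel : ‖h b - algebraMap ℚ_[p] (PadicAlgCl p) (η h) * b‖ ≤ δ' := by
    rw [← PadicComplex.norm_extends, coe_sub_alg, coe_mul_alg, ← cpMap_coe]
    have e0 : ((algebraMap ℚ_[p] (PadicAlgCl p) (η h) : PadicAlgCl p) : ℂ_[p]) =
      algebraMap ℚ_[p] ℂ_[p] (η h) := rfl
    have e : cpMap p h (b : ℂ_[p]) -
        ((algebraMap ℚ_[p] (PadicAlgCl p) (η h) : PadicAlgCl p) : ℂ_[p]) * b =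
        -(cpMap p h (x - b)) + algebraMap ℚ_[p] ℂ_[p] (η h) * (x - b) := by
      rw [map_sub, hx h (zeta_fix_of_le hNn hh1), e0]
      ring
    rw [e]
    refine (IsUltrametricDist.norm_add_le_max _ _).trans (max_le ?_ ?_)
    · rw [norm_neg, norm_cpMap]; exact hxb
    · rw [norm_mul, norm_algebraMap_C]
      exact (mul_le_of_le_one_left (norm_nonneg _) (h1 h)).trans hxb
  set R := RR n m b with hR
  have hR1 : RR n m (h b - algebraMap ℚ_[p] (PadicAlgCl p) (η h) * b) =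
      algebraMap ℚ_[p] (PadicAlgCl p) (1 - η h) * R := by
    rw [RR_sub, RR_smul, RR_gal n m hh1 hb', map_sub, map_one, hR]
    ring
  have hR2 : t * ‖R‖ ≤ p * δ' := by
    have h5 := norm_RR_le n m ((hb'.gal h).sub ((InK.const (n + 1 + m) (η h)).mul hb'))
    rw [hR1, norm_mul] at h5
    have h6 : ‖algebraMap ℚ_[p] (PadicAlgCl p) (1 - η h)‖ = t := PadicAlgCl.norm_extends p _
    rw [h6] at h5
    exact h5.trans (mul_le_mul_of_nonneg_left hbrel hp0.le)
  have hR3 : ‖R‖ ≤ ‖x‖ / 2 := by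
    have h5 : p * δ' ≤ t * (‖x‖ / 2) := by
      calc p * δ' ≤ p * (t * δ) := mul_le_mul_of_nonneg_left (min_le_right _ _) hp0.le
        _ = t * (p * δ) := by ring
        _ = _ := by rw [hδx]
    exact le_of_mul_le_mul_left (hR2.trans h5) ht0
  have hba : ‖b - a‖ ≤ δ := by
    rw [← PadicComplex.norm_extends, coe_sub_alg]
    have e : (b : ℂ_[p]) - (a : ℂ_[p]) = -(x - b) + (x - a) := by ring
    rw [e]
    refine (IsUltrametricDist.norm_add_le_max _ _).trans (max_le ?_ hxa)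
    rw [norm_neg]
    exact hxb.trans (min_le_left _ _)
  have hRa : ‖R - a‖ ≤ ‖x‖ / 2 := by
    have h5 : RR n m (b - a) = R - a := by rw [RR_sub, RR_of_InK n m ha]
    rw [← h5, ← hδx]
    exact (norm_RR_le n m (hb'.sub (ha.mono (by omega)))).trans
      (mul_le_mul_of_nonneg_left hba hp0.le)
  have hfin : ‖a‖ ≤ ‖x‖ / 2 := by
    have e : a = R + -(R - a) := by ring
    rw [e]
    refine (IsUltrametricDist.norm_add_le_max _ _).trans (max_le hR3 ?_)
    rw [norm_neg]; exact hRa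
  rw [hanorm] at hfin
  linarith

end Pool.Agent.Y804.FM
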