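import Pool.Agent.Y804.FM.Ker
import Pool.Agent.Y804.FM.Compl

/-!
Fontaine's map `θ` on `A_inf[1/p]` and on `BDeRhamPlus`, with values in `ℂ_[p]`, its kernel and its
equivariance.
-/

set_option autoImplicit false
set_option linter.unusedSectionVars false

namespace Pool.Agent.Y804.FM

open Ideal WittVector Pool.Agent.W292.FM

variable (p : ℕ) [hp : Fact p.Prime]

/-- `A_inf[1/p]` -/
abbrev AL : Type := Localization.Away (p : AI p)

theorem p_ne_zero_AI : (p : AI p) ≠ 0 := WittVector.p_nonzero p (TT p)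

theorem powers_le : Submonoid.powers (p : AI p) ≤ nonZeroDivisors (AI p) :=
  powers_le_nonZeroDivisors_of_noZeroDivisors (p_ne_zero_AI p)

instance isDomain_AL : IsDomain (AL p) :=
  IsLocalization.isDomain_localization (powers_le p)

theorem algebraMap_AL_injective : Function.Injective (algebraMap (AI p) (AL p)) :=
  IsLocalization.injective (AL p) (powers_le p)

/-- `ξ` in `A_inf[1/p]` -/
noncomputable def xiL : AL p := algebraMap (AI p) (AL p) (xi p)

theorem exists_AL (x : AL p) : ∃ (n : ℕ) (a : AI p), x * (p : AL p) ^ n = algebraMap (AI p) (AL p) a := by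
  obtain ⟨⟨a, s⟩, h⟩ := IsLocalization.surj (Submonoid.powers (p : AI p)) x
  obtain ⟨n, hn⟩ := s.2
  refine ⟨n, a, ?_⟩
  rw [← h]
  change _ = x * algebraMap (AI p) (AL p) (s : AI p)
  rw [← hn]
  simp

theorem isUnit_p_AL : IsUnit (p : AL p) := by
  have := IsLocalization.Away.algebraMap_isUnit (S := AL p) (p : AI p)
  simpa using this

theorem p_ne_zero_AL : (p : AL p) ≠ 0 := (isUnit_p_AL p).ne_zero

/-- Fontaine's map `θ : A_inf[1/p] → ℂ_[p]`. -/
noncomputable def thC : AL p →+* ℂ_[p] :=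
  IsLocalization.Away.lift (p : AI p)
    (g := (algebraMap 𝓞_ℂ_[p] ℂ_[p]).comp (fontaineTheta 𝓞_ℂ_[p] p)) (by
      rw [map_natCast]
      exact (p_ne_zero p).isUnit)

theorem thC_algebraMap (a : AI p) :
    thC p (algebraMap (AI p) (AL p) a) = ((fontaineTheta 𝓞_ℂ_[p] p a : 𝓞_ℂ_[p]) : ℂ_[p]) := by
  unfold thC
  rw [IsLocalization.Away.lift_eq]
  rfl

theorem coe_int_eq_zero {x : 𝓞_ℂ_[p]} : (x : ℂ_[p]) = 0 ↔ x = 0 := by
  constructor
  · intro h; exact Subtype.ext (by simpa using h)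
  · rintro rfl; rfl

theorem thC_eq_zero_iff (x : AL p) : thC p x = 0 ↔ xiL p ∣ x := by
  obtain ⟨n, a, ha⟩ := exists_AL p x
  have h1 : thC p x = 0 ↔ fontaineTheta 𝓞_ℂ_[p] p a = 0 := by
    have h2 := congrArg (thC p) ha
    rw [map_mul, thC_algebraMap, map_pow, map_natCast] at h2
    rw [← coe_int_eq_zero, ← h2]
    constructor
    · intro h; rw [h, zero_mul]
    · intro h; exact (mul_eq_zero.1 h).resolve_right (pow_ne_zero _ (p_ne_zero p))
  rw [h1, theta_eq_zero_iff]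
  constructor
  · rintro ⟨b, hb⟩
    rw [hb, map_mul] at ha
    have hu : IsUnit ((p : AL p) ^ n) := (isUnit_p_AL p).pow n
    have : xiL p ∣ x * (p : AL p) ^ n := ⟨_, ha⟩
    exact (hu.dvd_mul_right).1 this
  · rintro ⟨b, rfl⟩
    obtain ⟨m, c, hc⟩ := exists_AL p b
    have h3 : algebraMap (AI p) (AL p) (a * (p : AI p) ^ m) =
        algebraMap (AI p) (AL p) (xi p * (c * (p : AI p) ^ n)) := by
      rw [map_mul, ← ha, map_mul, map_mul, map_pow, map_pow, map_natCast, ← hc, xiL]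
      ring
    have h4 := algebraMap_AL_injective p h3
    -- `ξ ∣ a * p ^ m` implies `ξ ∣ a`
    rw [← theta_eq_zero_iff]
    have h5 : fontaineTheta 𝓞_ℂ_[p] p (a * (p : AI p) ^ m) = 0 := by
      rw [h4, map_mul, theta_xi, zero_mul]
    rw [map_mul, map_pow, map_natCast] at h5
    exact (mul_eq_zero.1 h5).resolve_right (pow_ne_zero _ p_ne_zero_int)

theorem mem_kerT_iff (x : AL p) : x ∈ kerT 𝓞_ℂ_[p] p ↔ thC p x = 0 := by
  obtain ⟨n, a, ha⟩ := exists_AL p x
  rw [RingHom.mem_ker]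
  have h2 := congrArg (thC p) ha
  rw [map_mul, thC_algebraMap, map_pow, map_natCast] at h2
  have h3 := congrArg (fontaineThetaInvertP 𝓞_ℂ_[p] p) ha
  rw [map_mul, thetaInvertP_algebraMap, map_pow, map_natCast] at h3
  have hle : Submonoid.powers (p : 𝓞_ℂ_[p]) ≤ nonZeroDivisors 𝓞_ℂ_[p] :=
    powers_le_nonZeroDivisors_of_noZeroDivisors p_ne_zero_int
  have hinj : Function.Injective (algebraMap 𝓞_ℂ_[p] (Localization.Away (p : 𝓞_ℂ_[p]))) :=
    IsLocalization.injective _ hle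
  have hu : IsUnit (p : Localization.Away (p : 𝓞_ℂ_[p])) := by
    have := IsLocalization.Away.algebraMap_isUnit (S := Localization.Away (p : 𝓞_ℂ_[p]))
      (p : 𝓞_ℂ_[p])
    simpa using this
  constructor
  · intro h
    rw [h, zero_mul] at h3
    have h4 : fontaineTheta 𝓞_ℂ_[p] p a = 0 := hinj (by rw [map_zero]; exact h3.symm)
    rw [h4] at h2
    have h5 : thC p x * (p : ℂ_[p]) ^ n = 0 := h2
    exact (mul_eq_zero.1 h5).resolve_right (pow_ne_zero _ (p_ne_zero p))
  · intro h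
    rw [h, zero_mul] at h2
    have h4 : fontaineTheta 𝓞_ℂ_[p] p a = 0 := (coe_int_eq_zero p).1 h2.symm
    rw [h4, map_zero] at h3
    exact (hu.pow n).mul_left_eq_zero.1 h3

theorem kerT_eq : kerT 𝓞_ℂ_[p] p = span {xiL p} := by
  ext x
  rw [mem_kerT_iff, thC_eq_zero_iff, Ideal.mem_span_singleton]

theorem thC_xiL : thC p (xiL p) = 0 := (thC_eq_zero_iff p _).2 (dvd_refl _)

/-- `θ` on `A_inf[1/p]` modulo the kernel of `θ` -/
noncomputable def thQ : AL p ⧸ kerT 𝓞_ℂ_[p] p ^ 1 →+* ℂ_[p] :=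
  Ideal.Quotient.lift _ (thC p) (fun a ha => by
    rw [pow_one] at ha
    exact (mem_kerT_iff p a).1 ha)

/-- Fontaine's map `θ : BDeRhamPlus → ℂ_[p]`. -/
noncomputable def thP : BDeRhamPlus 𝓞_ℂ_[p] p →+* ℂ_[p] := (thQ p).comp (evalP p 1)

theorem thP_toPlus (x : AL p) : thP p (toPlus p x) = thC p x := by
  unfold thP
  rw [RingHom.comp_apply, evalP_toPlus]
  rfl

theorem evalP_one_eq_zero {b : BDeRhamPlus 𝓞_ℂ_[p] p} (h : thP p b = 0) : evalP p 1 b = 0 := by
  obtain ⟨a, ha⟩ := Ideal.Quotient.mk_surjective (evalP p 1 b)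
  unfold thP at h
  rw [RingHom.comp_apply, ← ha] at h
  have h1 : thC p a = 0 := h
  rw [← ha, Ideal.Quotient.eq_zero_iff_mem, pow_one]
  exact (mem_kerT_iff p a).2 h1

/-! ### Equivariance -/

theorem thC_locMap (g : Gal(PadicAlgCl p/ℚ_[p])) (x : AL p) :
    thC p (locMap p (intMap p g) x) = cpMap p g (thC p x) := by
  have key : (thC p).comp (locMap p (intMap p g)) =
      (cpMap p g : ℂ_[p] →+* ℂ_[p]).comp (thC p) := by
    refine IsLocalization.ringHom_ext (Submonoid.powers (p : AI p)) ?_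
    ext x
    simp only [RingHom.comp_apply]
    rw [locMap_algebraMap, thC_algebraMap, thC_algebraMap, theta_map]
    rfl
  exact congrArg (fun f : AL p →+* ℂ_[p] => f x) key

theorem thP_plusMap (g : Gal(PadicAlgCl p/ℚ_[p])) (b : BDeRhamPlus 𝓞_ℂ_[p] p) :
    thP p (plusMap p (intMap p g) b) = cpMap p g (thP p b) := by
  obtain ⟨a, ha⟩ := Ideal.Quotient.mk_surjective (evalP p 1 b)
  unfold thP
  rw [RingHom.comp_apply, RingHom.comp_apply, evalP_plusMap, ← ha]
  exact thC_locMap p g a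

end Pool.Agent.Y804.FM
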