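import Pool.Agent.Y804.FM.Eps

/-!
The cyclotomic tower over `ℚ_[p]`: Galois conjugates, bounded expansions and the normalised trace.
-/

set_option autoImplicit false
set_option linter.unusedSectionVars false

namespace Pool.Agent.Y804.FM

open Polynomial Pool.Agent.W292.FM

variable {p : ℕ} [hp : Fact p.Prime]

theorem norm_sub_one_pos {z : PadicAlgCl p} {n : ℕ} (hz : IsPrimitiveRoot z (p ^ (n + 1))) :
    0 < ‖z - 1‖ := by
  rw [norm_pos_iff, sub_ne_zero]
  intro h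
  rw [h] at hz
  have h3 := hz.unique IsPrimitiveRoot.one
  have h2 : 1 < p ^ (n + 1) := one_lt_pow₀ hp.out.one_lt (Nat.succ_ne_zero n)
  exact absurd h3 h2.ne'

theorem norm_sub_one_le_one {z : PadicAlgCl p} {n : ℕ} (hz : IsPrimitiveRoot z (p ^ (n + 1))) :
    ‖z - 1‖ ≤ 1 := by
  rw [sub_eq_add_neg]
  refine (IsUltrametricDist.norm_add_le_max _ _).trans (max_le ?_ ?_)
  · exact (norm_rootOfUnity (pow_ne_zero _ hp.out.ne_zero) hz.pow_eq_one).le
  · rw [norm_neg, norm_one]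

theorem aeval_eq_sum_sub {z : PadicAlgCl p} (f : ℚ_[p][X]) {e : ℕ} (hf : f.natDegree < e) :
    aeval z f = ∑ j ∈ Finset.range e,
      algebraMap ℚ_[p] (PadicAlgCl p) ((taylor 1 f).coeff j) * (z - 1) ^ j := by
  have h1 : aeval (z - 1) (taylor 1 f) = aeval z f := by
    rw [taylor_apply, aeval_comp]
    simp
  rw [← h1, aeval_eq_sum_range' (n := e) (by rwa [natDegree_taylor])]
  refine Finset.sum_congr rfl fun j _ => ?_
  rw [Algebra.smul_def]

/-- The coefficients of a polynomial of small degree are bounded by its value at `ζ`. -/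
theorem norm_coeff_le {z : PadicAlgCl p} {n : ℕ} (hz : IsPrimitiveRoot z (p ^ (n + 1)))
    (f : ℚ_[p][X]) (hf : f.natDegree < Nat.totient (p ^ (n + 1))) (j : ℕ) :
    ‖f.coeff j‖ ≤ p * ‖aeval z f‖ := by
  set e := Nat.totient (p ^ (n + 1)) with he
  have hp0 : (0 : ℝ) < p := by exact_mod_cast hp.out.pos
  have h1 : ∀ i, ‖(taylor 1 f).coeff i‖ ≤ p * ‖aeval z f‖ := by
    intro i
    rcases Nat.lt_or_ge i e with hi | hi
    · have h2 := norm_term_le hz (fun j => (taylor 1 f).coeff j) hi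
      rw [← aeval_eq_sum_sub f hf, norm_mul, norm_pow] at h2
      have h3 : ‖algebraMap ℚ_[p] (PadicAlgCl p) ((taylor 1 f).coeff i)‖ =
        ‖(taylor 1 f).coeff i‖ := PadicAlgCl.norm_extends p _
      rw [h3] at h2
      have h4 : (p : ℝ)⁻¹ ≤ ‖z - 1‖ ^ i := by
        rw [← norm_sub_one_pow_totient hz]
        exact pow_le_pow_of_le_one (norm_nonneg _) (norm_sub_one_le_one hz) hi.le
      have h5 : ‖(taylor 1 f).coeff i‖ * (p : ℝ)⁻¹ ≤ ‖aeval z f‖ :=
        (mul_le_mul_of_nonneg_left h4 (norm_nonneg _)).trans h2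
      calc ‖(taylor 1 f).coeff i‖ = p * (‖(taylor 1 f).coeff i‖ * (p : ℝ)⁻¹) := by
            field_simp
        _ ≤ _ := mul_le_mul_of_nonneg_left h5 hp0.le
    · rw [coeff_eq_zero_of_natDegree_lt (by rw [natDegree_taylor]; omega), norm_zero]
      positivity
  have h2 : f.coeff j = (taylor (-1) (taylor 1 f)).coeff j := by
    rw [taylor_taylor, add_comm, ← sub_eq_add_neg, sub_self, taylor_zero]
  rw [h2, taylor_coeff, eval_eq_sum_range]
  refine IsUltrametricDist.norm_sum_le_of_forall_le_of_nonneg (by positivity) fun i _ => ?_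
  rw [hasseDeriv_coeff, norm_mul, norm_mul, norm_pow, norm_neg, norm_one, one_pow, mul_one]
  refine (mul_le_of_le_one_left (norm_nonneg _) ?_).trans (h1 _)
  exact_mod_cast Padic.norm_int_le_one ((i + j).choose j : ℤ)

theorem natDegree_minpoly {z : PadicAlgCl p} {n : ℕ} (hz : IsPrimitiveRoot z (p ^ (n + 1))) :
    Nat.totient (p ^ (n + 1)) ≤ (minpoly ℚ_[p] z).natDegree := by
  by_contra hcon
  push Not at hcon
  have hint : IsIntegral ℚ_[p] z := Algebra.IsIntegral.isIntegral z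
  have h1 := norm_coeff_le hz (minpoly ℚ_[p] z) hcon (minpoly ℚ_[p] z).natDegree
  rw [minpoly.aeval, norm_zero, mul_zero, coeff_natDegree, (minpoly.monic hint).leadingCoeff,
    norm_one] at h1
  linarith

theorem minpoly_eq {z : PadicAlgCl p} {n : ℕ} (hz : IsPrimitiveRoot z (p ^ (n + 1))) :
    minpoly ℚ_[p] z = cyclotomic (p ^ (n + 1)) ℚ_[p] := by
  have hint : IsIntegral ℚ_[p] z := Algebra.IsIntegral.isIntegral z
  have hpos : 0 < p ^ (n + 1) := pow_pos hp.out.pos _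
  have h1 : minpoly ℚ_[p] z ∣ cyclotomic (p ^ (n + 1)) ℚ_[p] := by
    apply minpoly.dvd
    rw [aeval_def, eval₂_eq_eval_map, map_cyclotomic]
    exact hz.isRoot_cyclotomic hpos
  refine (eq_of_monic_of_dvd_of_natDegree_le (minpoly.monic hint) (cyclotomic.monic _ _) h1 ?_).symm
  rw [natDegree_cyclotomic]
  exact natDegree_minpoly hz

/-- The Galois group permutes the primitive `p ^ n`-th roots of unity transitively. -/
theorem exists_gal {n : ℕ} {z w : PadicAlgCl p} (hz : IsPrimitiveRoot z (p ^ n))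
    (hw : IsPrimitiveRoot w (p ^ n)) : ∃ g : Gal(PadicAlgCl p/ℚ_[p]), g z = w := by
  rcases n with _ | n
  · rw [pow_zero, IsPrimitiveRoot.one_right_iff] at hz hw
    exact ⟨1, by rw [hz, hw]; rfl⟩
  · have hc : IsConjRoot ℚ_[p] z w := by
      rw [IsConjRoot, minpoly_eq hz, minpoly_eq hw]
    obtain ⟨g, hg⟩ := (isConjRoot_iff_exists_algEquiv (K := ℚ_[p]) (L := PadicAlgCl p)).1 hc.symm
    exact ⟨g, hg⟩

variable (p)

/-- The element `a` lies in the field `ℚ_p(ζ_{p^n})`. -/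
def InK (n : ℕ) (a : PadicAlgCl p) : Prop := ∃ f : ℚ_[p][X], a = aeval (zeta p n) f

variable {p}

theorem InK.mono {m n : ℕ} (h : m ≤ n) {a : PadicAlgCl p} (ha : InK p m a) : InK p n a := by
  obtain ⟨f, rfl⟩ := ha
  obtain ⟨k, rfl⟩ := Nat.exists_eq_add_of_le h
  refine ⟨f.comp (X ^ p ^ k), ?_⟩
  rw [aeval_comp, map_pow, aeval_X, zeta_add_pow]

theorem InK.add {n : ℕ} {a b : PadicAlgCl p} (ha : InK p n a) (hb : InK p n b) :
    InK p n (a + b) := by
  obtain ⟨f, rfl⟩ := ha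
  obtain ⟨g, rfl⟩ := hb
  exact ⟨f + g, by rw [map_add]⟩

theorem InK.sub {n : ℕ} {a b : PadicAlgCl p} (ha : InK p n a) (hb : InK p n b) :
    InK p n (a - b) := by
  obtain ⟨f, rfl⟩ := ha
  obtain ⟨g, rfl⟩ := hb
  exact ⟨f - g, by rw [map_sub]⟩

theorem InK.mul {n : ℕ} {a b : PadicAlgCl p} (ha : InK p n a) (hb : InK p n b) :
    InK p n (a * b) := by
  obtain ⟨f, rfl⟩ := ha
  obtain ⟨g, rfl⟩ := hb
  exact ⟨f * g, by rw [map_mul]⟩

theorem InK.const (n : ℕ) (c : ℚ_[p]) : InK p n (algebraMap ℚ_[p] (PadicAlgCl p) c) :=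
  ⟨C c, by rw [aeval_C]⟩

/-- An element of `ℚ_p(ζ)` is the value of a polynomial of small degree. -/
theorem InK.exists_small {n : ℕ} {a : PadicAlgCl p} (ha : InK p (n + 1) a) :
    ∃ f : ℚ_[p][X], f.natDegree < Nat.totient (p ^ (n + 1)) ∧ a = aeval (zeta p (n + 1)) f := by
  obtain ⟨f, rfl⟩ := ha
  have hm := cyclotomic.monic (p ^ (n + 1)) ℚ_[p]
  have hroot : aeval (zeta p (n + 1)) (cyclotomic (p ^ (n + 1)) ℚ_[p]) = 0 := by
    rw [← minpoly_eq (zeta_prim p (n + 1)), minpoly.aeval]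
  have hne : cyclotomic (p ^ (n + 1)) ℚ_[p] ≠ 1 := by
    intro h
    have h1 := natDegree_cyclotomic (p ^ (n + 1)) ℚ_[p]
    rw [h, natDegree_one] at h1
    have := Nat.totient_pos.2 (pow_pos hp.out.pos (n + 1))
    omega
  refine ⟨f %ₘ cyclotomic (p ^ (n + 1)) ℚ_[p], ?_, ?_⟩
  · have := natDegree_modByMonic_lt f hm hne
    rwa [natDegree_cyclotomic] at this
  · rw [aeval_modByMonic_eq_self_of_root hroot]

theorem gal_eq_of_InK {n : ℕ} {g h : Gal(PadicAlgCl p/ℚ_[p])} (hgh : g (zeta p n) = h (zeta p n))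
    {a : PadicAlgCl p} (ha : InK p n a) : g a = h a := by
  obtain ⟨f, rfl⟩ := ha
  rw [← aeval_algHom_apply, ← aeval_algHom_apply, hgh]

theorem gal_fix {n : ℕ} {g : Gal(PadicAlgCl p/ℚ_[p])} (hg : g (zeta p n) = zeta p n)
    {a : PadicAlgCl p} (ha : InK p n a) : g a = a :=
  gal_eq_of_InK (h := 1) hg ha

/-! ### The normalised trace from level `n + k` to level `n ≥ 1` -/

theorem exists_conj (n k i : ℕ) : ∃ g : Gal(PadicAlgCl p/ℚ_[p]),
    g (zeta p (n + 1 + k)) = zeta p (n + 1 + k) ^ (1 + p ^ (n + 1) * i) := by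
  apply exists_gal (zeta_prim p (n + 1 + k))
  apply (zeta_prim p (n + 1 + k)).pow_of_coprime
  apply Nat.Coprime.pow_right
  rw [Nat.coprime_comm, Nat.Prime.coprime_iff_not_dvd hp.out]
  intro h
  have h1 : p ∣ p ^ (n + 1) * i := Dvd.dvd.mul_right (dvd_pow_self p (Nat.succ_ne_zero n)) i
  have h2 := (Nat.dvd_add_left h1).1 h
  exact hp.out.one_lt.ne' (Nat.dvd_one.1 h2)

/-- Representatives of the Galois group of level `n + 1 + k` over level `n + 1`. -/
noncomputable def cj (n k i : ℕ) : Gal(PadicAlgCl p/ℚ_[p]) := (exists_conj n k i).choose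

theorem cj_spec (n k i : ℕ) : cj (p := p) n k i (zeta p (n + 1 + k)) =
    zeta p (n + 1 + k) ^ (1 + p ^ (n + 1) * i) := (exists_conj n k i).choose_spec

theorem zeta_pow_eq (n k : ℕ) : zeta p (n + 1 + k) ^ p ^ (n + 1) = zeta p k := by
  rw [add_comm (n + 1) k, zeta_add_pow]

/-- The normalised trace. -/
noncomputable def RR (n k : ℕ) (a : PadicAlgCl p) : PadicAlgCl p :=
  ((p : PadicAlgCl p) ^ k)⁻¹ * ∑ i ∈ Finset.range (p ^ k), cj (p := p) n k i a

theorem RR_sub (n k : ℕ) (a b : PadicAlgCl p) : RR n k (a - b) = RR n k a - RR n k b := by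
  simp only [RR, map_sub, Finset.sum_sub_distrib, mul_sub]

theorem RR_smul (n k : ℕ) (c : ℚ_[p]) (a : PadicAlgCl p) :
    RR n k (algebraMap ℚ_[p] (PadicAlgCl p) c * a) = algebraMap ℚ_[p] (PadicAlgCl p) c * RR n k a := by
  simp only [RR, map_mul, AlgEquiv.commutes, ← Finset.mul_sum]
  ring

theorem cj_fix (n k i : ℕ) : cj (p := p) n k i (zeta p (n + 1)) = zeta p (n + 1) := by
  have e : (1 + p ^ (n + 1) * i) * p ^ k = p ^ k + p ^ (n + 1 + k) * i := by ring
  rw [← zeta_add_pow p (n + 1) k, map_pow, cj_spec, ← pow_mul, e, pow_add, pow_mul _ _ i,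
    (zeta_prim p (n + 1 + k)).pow_eq_one, one_pow, mul_one]

theorem RR_of_InK (n k : ℕ) {a : PadicAlgCl p} (ha : InK p (n + 1) a) : RR n k a = a := by
  rw [RR, Finset.sum_congr rfl (fun i _ => gal_fix (cj_fix n k i) ha), Finset.sum_const,
    Finset.card_range, nsmul_eq_mul, ← mul_assoc, Nat.cast_pow, inv_mul_cancel₀, one_mul]
  exact pow_ne_zero _ (by exact_mod_cast hp.out.ne_zero)

theorem sum_root (k j : ℕ) : ∑ i ∈ Finset.range (p ^ k), (zeta p k ^ j) ^ i =
    if p ^ k ∣ j then (p : PadicAlgCl p) ^ k else 0 := by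
  split_ifs with h
  · have h1 : zeta p k ^ j = 1 := by
      obtain ⟨c, rfl⟩ := h
      rw [pow_mul, (zeta_prim p k).pow_eq_one, one_pow]
    simp [h1]
  · have h1 : zeta p k ^ j ≠ 1 := fun h2 => h ((zeta_prim p k).dvd_of_pow_eq_one j h2)
    have h2 := geom_sum_mul (zeta p k ^ j) (p ^ k)
    rw [← pow_mul, mul_comm j, pow_mul, (zeta_prim p k).pow_eq_one, one_pow, sub_self] at h2
    exact (mul_eq_zero.1 h2).resolve_right (sub_ne_zero.2 h1)

theorem RR_zeta_pow (n k j : ℕ) : RR n k (zeta p (n + 1 + k) ^ j) =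
    if p ^ k ∣ j then zeta p (n + 1 + k) ^ j else 0 := by
  have h : ∀ i, cj (p := p) n k i (zeta p (n + 1 + k) ^ j) =
      zeta p (n + 1 + k) ^ j * (zeta p k ^ j) ^ i := by
    intro i
    rw [map_pow, cj_spec, ← zeta_pow_eq n k, ← pow_mul, ← pow_mul, ← pow_mul, ← pow_add]
    congr 1
    ring
  rw [RR, Finset.sum_congr rfl (fun i _ => h i), ← Finset.mul_sum, sum_root]
  split_ifs with h1
  · rw [mul_comm (zeta p (n + 1 + k) ^ j), ← mul_assoc, inv_mul_cancel₀, one_mul]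
    exact pow_ne_zero _ (by exact_mod_cast hp.out.ne_zero)
  · rw [mul_zero, mul_zero]

theorem RR_aeval (n k : ℕ) (f : ℚ_[p][X]) : RR n k (aeval (zeta p (n + 1 + k)) f) =
    ∑ j ∈ Finset.range (f.natDegree + 1), algebraMap ℚ_[p] (PadicAlgCl p) (f.coeff j) *
      (if p ^ k ∣ j then zeta p (n + 1 + k) ^ j else 0) := by
  have hsum : ∀ (s : Finset ℕ) (F : ℕ → PadicAlgCl p), RR n k (∑ j ∈ s, F j) =
      ∑ j ∈ s, RR n k (F j) := by
    intro s F
    simp only [RR, map_sum]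
    rw [Finset.sum_comm, Finset.mul_sum]
  rw [aeval_eq_sum_range, hsum]
  refine Finset.sum_congr rfl fun j _ => ?_
  rw [Algebra.smul_def, RR_smul, RR_zeta_pow]

theorem norm_RR_le (n k : ℕ) {a : PadicAlgCl p} (ha : InK p (n + 1 + k) a) :
    ‖RR n k a‖ ≤ p * ‖a‖ := by
  have e : n + 1 + k = (n + k) + 1 := by ring
  rw [e] at ha
  obtain ⟨f, hf, hfa⟩ := ha.exists_small
  have hb := norm_coeff_le (zeta_prim p (n + k + 1)) f hf
  rw [← e] at hfa hb
  rw [hfa, RR_aeval]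
  refine IsUltrametricDist.norm_sum_le_of_forall_le_of_nonneg (by positivity) fun j _ => ?_
  rw [norm_mul]
  have h3 : ‖algebraMap ℚ_[p] (PadicAlgCl p) (f.coeff j)‖ = ‖f.coeff j‖ :=
    PadicAlgCl.norm_extends p _
  rw [h3]
  refine (mul_le_of_le_one_right (norm_nonneg _) ?_).trans (hb j)
  split_ifs
  · rw [norm_pow, norm_zeta, one_pow]
  · rw [norm_zero]; exact zero_le_one

theorem RR_InK (n k : ℕ) {a : PadicAlgCl p} (ha : InK p (n + 1 + k) a) :
    InK p (n + 1) (RR n k a) := by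
  obtain ⟨f, rfl⟩ := ha
  rw [RR_aeval]
  have hsum : ∀ (s : Finset ℕ) (F : ℕ → PadicAlgCl p), (∀ j ∈ s, InK p (n + 1) (F j)) →
      InK p (n + 1) (∑ j ∈ s, F j) := by
    intro s F hF
    induction s using Finset.cons_induction with
    | empty => exact ⟨0, by simp⟩
    | cons b s hb ih =>
      rw [Finset.sum_cons]
      exact (hF b (Finset.mem_cons_self b s)).add
        (ih fun j hj => hF j (Finset.mem_cons_of_mem hj))
  refine hsum _ _ fun j _ => (InK.const _ _).mul ?_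
  split_ifs with h
  · obtain ⟨c, rfl⟩ := h
    rw [pow_mul, zeta_add_pow]
    exact ⟨X ^ c, by simp⟩
  · exact ⟨0, by simp⟩

theorem exists_pow_eq (m : ℕ) (h : Gal(PadicAlgCl p/ℚ_[p])) : ∃ u : ℕ,
    h (zeta p m) = zeta p m ^ u := ⟨_, chi_spec h m _ (zeta_prim p m).pow_eq_one⟩

theorem RR_gal (n k : ℕ) {h : Gal(PadicAlgCl p/ℚ_[p])} (hh : h (zeta p (n + 1)) = zeta p (n + 1))
    {a : PadicAlgCl p} (ha : InK p (n + 1 + k) a) : RR n k (h a) = RR n k a := by
  obtain ⟨u, hu⟩ := exists_pow_eq (n + 1 + k) h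
  have h1 : ∀ i, cj (p := p) n k i (h a) = h (cj (p := p) n k i a) := by
    intro i
    have h2 : (cj (p := p) n k i * h) (zeta p (n + 1 + k)) =
        (h * cj (p := p) n k i) (zeta p (n + 1 + k)) := by
      rw [AlgEquiv.mul_apply, AlgEquiv.mul_apply, hu, map_pow, cj_spec, map_pow, hu, ← pow_mul,
        ← pow_mul, mul_comm]
    exact gal_eq_of_InK h2 ha
  have h3 : RR n k (h a) = h (RR n k a) := by
    rw [RR, RR, Finset.sum_congr rfl (fun i _ => h1 i), map_mul, map_sum, map_inv₀, map_pow,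
      map_natCast]
  rw [h3]
  exact gal_fix hh (RR_InK n k ha)

end Pool.Agent.Y804.FM
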